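import Mathlib

/-!
The Ahlfors and Beurling bound for the Cauchy transform of a plane set.
-/

set_option autoImplicit false

open MeasureTheory Metric Set Filter Topology Complex
open scoped ENNReal Real

namespace Pool.Agent.Helper60.CO

/-- inner integral -/
theorem inner_int {a t : ℝ} (ht : 0 < t) :
    ∫⁻ r in Ioi (0 : ℝ), ENNReal.ofReal (a - t * r) ≤ ENNReal.ofReal ((max a 0) ^ 2 / (2 * t)) := by
  by_cases ha : a ≤ 0
  · have h0 : ∀ r ∈ Ioi (0 : ℝ), ENNReal.ofReal (a - t * r) = 0 := by
      intro r hr
      rw [ENNReal.ofReal_eq_zero]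
      have : 0 < t * r := mul_pos ht hr
      linarith
    rw [setLIntegral_congr_fun measurableSet_Ioi h0]
    simp
  · push Not at ha
    have h1 : ∀ r ∈ Ioi (0 : ℝ), ENNReal.ofReal (a - t * r) =
        (Ioc 0 (a / t)).indicator (fun r => ENNReal.ofReal (a - t * r)) r := by
      intro r hr
      by_cases h : r ∈ Ioc 0 (a / t)
      · rw [indicator_of_mem h]
      · rw [indicator_of_notMem h, ENNReal.ofReal_eq_zero]
        have h2 : a / t < r := by
          by_contra h3
          exact h ⟨hr, not_lt.1 h3⟩
        rw [div_lt_iff₀ ht] at h2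
        linarith
    rw [setLIntegral_congr_fun measurableSet_Ioi h1, lintegral_indicator measurableSet_Ioc,
      Measure.restrict_restrict measurableSet_Ioc]
    have h2 : Ioc 0 (a / t) ∩ Ioi (0 : ℝ) = Ioc 0 (a / t) := by
      rw [inter_eq_left]
      exact Ioc_subset_Ioi_self
    rw [h2, ← ofReal_integral_eq_lintegral_ofReal]
    · refine ENNReal.ofReal_le_ofReal (le_of_eq ?_)
      rw [← intervalIntegral.integral_of_le (by positivity)]
      have h3 : ∀ x ∈ uIcc 0 (a / t), HasDerivAt (fun r => a * r - t * r ^ 2 / 2) (a - t * x) x := by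
        intro x _
        have h4 := ((hasDerivAt_id x).const_mul a).sub
          ((((hasDerivAt_id x).pow 2).const_mul t).div_const 2)
        refine h4.congr_deriv ?_
        simp
        ring
      rw [intervalIntegral.integral_eq_sub_of_hasDerivAt h3 (by
        apply Continuous.intervalIntegrable
        fun_prop), max_eq_left ha.le]
      field_simp
      ring
    · have : Continuous fun r : ℝ => a - t * r := by fun_prop
      exact (this.integrableOn_Icc (a := 0) (b := a / t)).mono_set Ioc_subset_Icc_self
    · refine (ae_restrict_iff' measurableSet_Ioc).2 (Eventually.of_forall fun r hr => ?_)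
      have h4 := hr.2
      rw [le_div_iff₀ ht] at h4
      simp only [Pi.zero_apply]
      linarith

/-- the integral of `cos ^ 2` over the half circle -/
theorem cos_int {t : ℝ} (ht : 0 < t) :
    ∫⁻ θ in Ioo (-π) π, ENNReal.ofReal ((max (Real.cos θ) 0) ^ 2 / (2 * t)) ≤
      ENNReal.ofReal (π / (4 * t)) := by
  have hpi := Real.pi_pos
  have h1 : ∀ θ ∈ Ioo (-π) π, ENNReal.ofReal ((max (Real.cos θ) 0) ^ 2 / (2 * t)) =
      (Ioc (-(π / 2)) (π / 2)).indicator (fun θ => ENNReal.ofReal ((Real.cos θ) ^ 2 / (2 * t))) θ := by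
    intro θ hθ
    by_cases h : θ ∈ Ioc (-(π / 2)) (π / 2)
    · rw [indicator_of_mem h, max_eq_left (Real.cos_nonneg_of_mem_Icc ⟨h.1.le, h.2⟩)]
    · rw [indicator_of_notMem h]
      have h2 : Real.cos θ ≤ 0 := by
        by_cases h3 : θ ≤ -(π / 2)
        · rw [← Real.cos_neg]
          exact Real.cos_nonpos_of_pi_div_two_le_of_le (by linarith) (by linarith [hθ.1])
        · push Not at h3
          have h4 : π / 2 < θ := by
            by_contra h5
            exact h ⟨h3, not_lt.1 h5⟩
          exact Real.cos_nonpos_of_pi_div_two_le_of_le h4.le (by linarith [hθ.2])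
      rw [max_eq_right h2]
      simp
  rw [setLIntegral_congr_fun measurableSet_Ioo h1, lintegral_indicator measurableSet_Ioc,
    Measure.restrict_restrict measurableSet_Ioc]
  have h2 : Ioc (-(π / 2)) (π / 2) ∩ Ioo (-π) π = Ioc (-(π / 2)) (π / 2) := by
    rw [inter_eq_left]
    intro x hx
    exact ⟨by linarith [hx.1], by linarith [hx.2]⟩
  rw [h2, ← ofReal_integral_eq_lintegral_ofReal]
  · refine ENNReal.ofReal_le_ofReal (le_of_eq ?_)
    rw [← intervalIntegral.integral_of_le (by linarith), intervalIntegral.integral_div,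
      integral_cos_sq]
    simp
    field_simp
    ring
  · have : Continuous fun θ : ℝ => (Real.cos θ) ^ 2 / (2 * t) := by fun_prop
    exact (this.integrableOn_Icc (a := -(π / 2)) (b := π / 2)).mono_set Ioc_subset_Icc_self
  · refine Eventually.of_forall fun θ => ?_
    simp only [Pi.zero_apply]
    positivity

theorem J_int {t : ℝ} (ht : 0 < t) :
    ∫⁻ ζ : ℂ, ENNReal.ofReal ((ζ⁻¹).re - t) ≤ ENNReal.ofReal (π / (4 * t)) := by
  rw [← Complex.lintegral_comp_polarCoord_symm]
  have h1 : ∀ p ∈ polarCoord.target, ENNReal.ofReal p.1 •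
      ENNReal.ofReal (((Complex.polarCoord.symm p)⁻¹).re - t) =
      ENNReal.ofReal (Real.cos p.2 - t * p.1) := by
    rintro ⟨r, θ⟩ hp
    rw [polarCoord_target] at hp
    have hr : 0 < r := hp.1
    have h2 : (Complex.polarCoord.symm (r, θ))⁻¹.re = Real.cos θ / r := by
      rw [Complex.polarCoord_symm_apply, Complex.inv_re]
      have h3 : Complex.normSq (↑r * (↑(Real.cos θ) + ↑(Real.sin θ) * I)) = r ^ 2 := by
        rw [Complex.normSq_mul, Complex.normSq_ofReal]
        have h4 : Complex.normSq (↑(Real.cos θ) + ↑(Real.sin θ) * I) = 1 := by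
          rw [Complex.normSq_add_mul_I]
          exact Real.cos_sq_add_sin_sq θ
        rw [h4]
        ring
      rw [h3]
      have h5 : (↑r * (↑(Real.cos θ) + ↑(Real.sin θ) * I) : ℂ).re = r * Real.cos θ := by
        rw [Complex.re_ofReal_mul, Complex.add_re, Complex.ofReal_re, Complex.re_ofReal_mul,
          Complex.I_re, mul_zero, add_zero]
      rw [h5]
      field_simp
    rw [h2, smul_eq_mul, ← ENNReal.ofReal_mul hr.le]
    congr 1
    field_simp
  rw [setLIntegral_congr_fun polarCoord.open_target.measurableSet h1, polarCoord_target,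
    Measure.volume_eq_prod, ← Measure.prod_restrict, lintegral_prod_symm]
  · refine le_trans (lintegral_mono fun θ => ?_) (cos_int ht)
    exact inner_int ht
  · refine Measurable.aemeasurable ?_
    fun_prop

end Pool.Agent.Helper60.CO
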