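import Mathlib
import Pool.Agent.Helper60.CO.Area1

set_option autoImplicit false

open MeasureTheory Metric Set Filter Topology Complex
open scoped ENNReal Real

namespace Pool.Agent.Helper60.CO

theorem J_rot {t : ℝ} (ht : 0 < t) {u : ℂ} (hu : ‖u‖ = 1) (w : ℂ) :
    ∫⁻ ζ : ℂ, ENNReal.ofReal ((u * (ζ - w)⁻¹).re - t) ≤ ENNReal.ofReal (π / (4 * t)) := by
  rw [lintegral_sub_right_eq_self (fun ζ : ℂ => ENNReal.ofReal ((u * ζ⁻¹).re - t)) w]
  set a : Circle := ⟨u, mem_sphere_zero_iff_norm.2 hu⟩ with ha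
  have h1 := (rotation a).measurePreserving.lintegral_comp_emb
    (rotation a).toHomeomorph.measurableEmbedding
    (fun ζ : ℂ => ENNReal.ofReal ((u * ζ⁻¹).re - t))
  rw [← h1]
  have hu0 : u ≠ 0 := by
    intro h
    rw [h, norm_zero] at hu
    exact zero_ne_one hu
  have h2 : ∀ ζ : ℂ, u * ((rotation a) ζ)⁻¹ = ζ⁻¹ := by
    intro ζ
    rw [rotation_apply]
    change u * (u * ζ)⁻¹ = ζ⁻¹
    rw [mul_inv, mul_inv_cancel_left₀ hu0]
  simp_rw [h2]
  exact J_int ht

/-- **The inequality of Ahlfors and Beurling.** -/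
theorem ahlfors_beurling {U : Set ℂ} {w : ℂ}
    (hi : IntegrableOn (fun ζ => (ζ - w)⁻¹) U) {A : ℝ} (hA : 0 < A)
    (hv : volume U ≤ ENNReal.ofReal A) : ‖∫ ζ in U, (ζ - w)⁻¹‖ ≤ √(π * A) := by
  have hpi := Real.pi_pos
  obtain ⟨I0, hI0⟩ : ∃ I0, I0 = ∫ ζ in U, (ζ - w)⁻¹ := ⟨_, rfl⟩
  rw [← hI0]
  have key : ∀ t : ℝ, 0 < t → ‖I0‖ ≤ t * A + π / (4 * t) := by
    intro t ht
    by_cases h0 : I0 = 0
    · rw [h0, norm_zero]
      positivity
    have hn : ‖I0‖ ≠ 0 := norm_ne_zero_iff.2 h0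
    have hnc : (‖I0‖ : ℂ) ≠ 0 := by exact_mod_cast hn
    set u : ℂ := starRingEnd ℂ I0 / ‖I0‖ with hu
    have hu1 : ‖u‖ = 1 := by
      rw [hu, norm_div, RCLike.norm_conj, Complex.norm_real, norm_norm, div_self hn]
    have huI : u * I0 = ‖I0‖ := by
      rw [hu, div_mul_eq_mul_div, mul_comm, Complex.mul_conj, Complex.normSq_eq_norm_sq]
      push_cast
      field_simp
    have hgi : IntegrableOn (fun ζ => (u * (ζ - w)⁻¹).re) U := (hi.const_mul u).re
    have h1 : ‖I0‖ = ∫ ζ in U, (u * (ζ - w)⁻¹).re := by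
      have h2 := Complex.reCLM.integral_comp_comm (hi.const_mul u)
      simp only [Complex.reCLM_apply] at h2
      rw [h2, integral_const_mul, ← hI0, huI, Complex.ofReal_re]
    have h2 : ∫ ζ in U, (u * (ζ - w)⁻¹).re ≤ ∫ ζ in U, max ((u * (ζ - w)⁻¹).re) 0 :=
      integral_mono hgi hgi.pos_part (fun ζ => le_max_left _ _)
    have h3 : ENNReal.ofReal (∫ ζ in U, max ((u * (ζ - w)⁻¹).re) 0) ≤
        ENNReal.ofReal (t * A + π / (4 * t)) := by
      rw [ofReal_integral_eq_lintegral_ofReal hgi.pos_part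
        (Eventually.of_forall fun ζ => le_max_right _ _)]
      calc ∫⁻ ζ in U, ENNReal.ofReal (max ((u * (ζ - w)⁻¹).re) 0)
          ≤ ∫⁻ ζ in U, (ENNReal.ofReal t + ENNReal.ofReal ((u * (ζ - w)⁻¹).re - t)) := by
            refine lintegral_mono fun ζ => ?_
            simp only
            by_cases h : t ≤ (u * (ζ - w)⁻¹).re
            · rw [← ENNReal.ofReal_add ht.le (by linarith), max_eq_left (ht.le.trans h)]
              refine ENNReal.ofReal_le_ofReal (by linarith)
            · push Not at h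
              refine le_add_right (ENNReal.ofReal_le_ofReal (max_le h.le ht.le))
        _ = ENNReal.ofReal t * volume U +
            ∫⁻ ζ in U, ENNReal.ofReal ((u * (ζ - w)⁻¹).re - t) := by
            rw [lintegral_add_left measurable_const, setLIntegral_const]
        _ ≤ ENNReal.ofReal t * ENNReal.ofReal A + ENNReal.ofReal (π / (4 * t)) := by
            gcongr
            exact (setLIntegral_le_lintegral _ _).trans (J_rot ht hu1 w)
        _ = ENNReal.ofReal (t * A + π / (4 * t)) := by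
            rw [← ENNReal.ofReal_mul ht.le, ENNReal.ofReal_add (by positivity) (by positivity)]
    have h4 := (ENNReal.ofReal_le_ofReal_iff (by positivity)).1 h3
    linarith
  have hsA : 0 < √A := Real.sqrt_pos.2 hA
  have hsp : 0 < √π := Real.sqrt_pos.2 hpi
  refine (key (√π / (2 * √A)) (by positivity)).trans (le_of_eq ?_)
  rw [Real.sqrt_mul hpi.le]
  have e1 : √A * √A = A := Real.mul_self_sqrt hA.le
  have e2 : √π * √π = π := Real.mul_self_sqrt hpi.le
  have h5 : √π / (2 * √A) * A = √π * √A / 2 := by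
    rw [div_mul_eq_mul_div, div_eq_div_iff (by positivity) two_ne_zero]
    linear_combination (-(2 * √π)) * e1
  have h6 : π / (4 * (√π / (2 * √A))) = √π * √A / 2 := by
    have h7 : √π * √A * (4 * (√π / (2 * √A))) = 2 * (√π * √π) := by
      field_simp
      norm_num
    rw [div_eq_div_iff (by positivity) two_ne_zero, h7, e2]
    ring
  rw [h5, h6]
  ring

end Pool.Agent.Helper60.CO
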