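import Mathlib
import Pool.Agent.Helper60.CO.Area2
import Pool.Graph.R_seed8.H720R2.HP.Kern

set_option autoImplicit false

open MeasureTheory Metric Set Filter Topology Complex
open scoped ENNReal Real ContDiff

namespace Pool.Agent.Helper60.CO

/-- the rational functions without poles on `K` -/
def RatS (K : Set ℂ) : Submodule ℂ C(K, ℂ) where
  carrier := {u | ∃ P Q : Polynomial ℂ, ∀ w : K, Q.eval (w : ℂ) ≠ 0 ∧ u w = P.eval (w : ℂ) / Q.eval (w : ℂ)}
  zero_mem' := ⟨0, 1, fun w => by simp⟩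
  add_mem' := by
    rintro u v ⟨P, Q, h⟩ ⟨P', Q', h'⟩
    refine ⟨P * Q' + P' * Q, Q * Q', fun w => ⟨?_, ?_⟩⟩
    · rw [Polynomial.eval_mul]
      exact mul_ne_zero (h w).1 (h' w).1
    · rw [ContinuousMap.add_apply, (h w).2, (h' w).2, div_add_div _ _ (h w).1 (h' w).1,
        Polynomial.eval_add, Polynomial.eval_mul, Polynomial.eval_mul, Polynomial.eval_mul]
      ring
  smul_mem' := by
    rintro c u ⟨P, Q, h⟩
    refine ⟨Polynomial.C c * P, Q, fun w => ⟨(h w).1, ?_⟩⟩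
    rw [ContinuousMap.smul_apply, (h w).2, Polynomial.eval_mul, Polynomial.eval_C, smul_eq_mul,
      mul_div_assoc]

theorem int_closure {K L : Set ℂ} (hK : IsCompact K) (hL : IsCompact L) (hd : Disjoint K L)
    {g : ℂ → ℂ} (hg : ContinuousOn g L) {ε : ℝ} (hε : 0 < ε) :
    ∃ P Q : Polynomial ℂ, ∀ w ∈ K, Q.eval w ≠ 0 ∧
      ‖(∫ ζ in L, g ζ * (ζ - w)⁻¹) - P.eval w / Q.eval w‖ ≤ ε := by
  have : CompactSpace K := isCompact_iff_compactSpace.1 hK
  have : CompactSpace L := isCompact_iff_compactSpace.1 hL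
  have hne : ∀ (ζ : L) (w : K), (ζ : ℂ) - (w : ℂ) ≠ 0 := by
    intro ζ w h
    rw [sub_eq_zero] at h
    exact Set.disjoint_left.1 hd w.2 (h ▸ ζ.2)
  have hgc : Continuous fun ζ : L => g ζ := continuousOn_iff_continuous_domRestrict.1 hg
  let Ψ : C(L × K, ℂ) := ⟨fun q => g q.1 * ((q.1 : ℂ) - (q.2 : ℂ))⁻¹, by
    refine (hgc.comp continuous_fst).mul (Continuous.inv₀ (by fun_prop) fun q => hne q.1 q.2)⟩
  let Φ : C(L, C(K, ℂ)) := Ψ.curry
  have hΦ : ∀ (ζ : L) (w : K), Φ ζ w = g ζ * ((ζ : ℂ) - (w : ℂ))⁻¹ := fun ζ w => rfl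
  have hmem : ∀ ζ : L, Φ ζ ∈ RatS K := by
    intro ζ
    refine ⟨Polynomial.C (g ζ), Polynomial.C (ζ : ℂ) - Polynomial.X, fun w => ⟨?_, ?_⟩⟩
    · simpa using hne ζ w
    · rw [hΦ]
      simp [div_eq_mul_inv]
  have hLm : MeasurableSet L := hL.isClosed.measurableSet
  obtain ⟨μ, hμ⟩ : ∃ μ : Measure L, μ = Measure.comap (Subtype.val : L → ℂ) volume := ⟨_, rfl⟩
  have : IsFiniteMeasure μ := by
    refine ⟨?_⟩
    rw [hμ, comap_subtype_coe_apply hLm, image_univ, Subtype.range_coe]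
    exact hL.measure_lt_top
  have hint : Integrable (fun ζ => Φ ζ) μ :=
    Φ.continuous.integrable_of_hasCompactSupport (HasCompactSupport.of_compactSpace _)
  have hcl : (∫ ζ, Φ ζ ∂μ) ∈ (RatS K).topologicalClosure := by
    by_cases h0 : μ = 0
    · rw [h0, integral_zero_measure]
      exact zero_mem _
    · have : NeZero μ := ⟨h0⟩
      rw [← measure_smul_average]
      have h1 : (⨍ ζ, Φ ζ ∂μ) ∈ ((RatS K).topologicalClosure : Set C(K, ℂ)) := by
        refine Convex.average_mem ?_ (RatS K).isClosed_topologicalClosure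
          (Eventually.of_forall fun ζ => (RatS K).le_topologicalClosure (hmem ζ)) hint
        exact ((RatS K).topologicalClosure.restrictScalars ℝ).convex
      have h2 := (RatS K).topologicalClosure.smul_mem ((μ.real univ : ℝ) : ℂ) h1
      simpa using h2
  have h2 : (∫ ζ, Φ ζ ∂μ) ∈ closure (RatS K : Set C(K, ℂ)) := hcl
  obtain ⟨s, hs, hds⟩ := Metric.mem_closure_iff.1 h2 ε hε
  obtain ⟨P, Q, hPQ⟩ := hs
  refine ⟨P, Q, fun w hw => ⟨(hPQ ⟨w, hw⟩).1, ?_⟩⟩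
  have h3 : (∫ ζ, Φ ζ ∂μ) ⟨w, hw⟩ = ∫ ζ in L, g ζ * (ζ - w)⁻¹ := by
    have h4 := (ContinuousMap.evalCLM ℂ (⟨w, hw⟩ : K)).integral_comp_comm hint
    rw [ContinuousMap.evalCLM_apply] at h4
    rw [← h4]
    have h5 := integral_subtype_comap hLm (fun ζ => g ζ * (ζ - w)⁻¹) (μ := (volume : Measure ℂ))
    rw [← h5, ← hμ]
    rfl
  rw [← h3, ← (hPQ ⟨w, hw⟩).2]
  have h6 := ContinuousMap.norm_coe_le_norm ((∫ ζ, Φ ζ ∂μ) - s) ⟨w, hw⟩
  rw [ContinuousMap.sub_apply] at h6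
  refine h6.trans ?_
  rw [← dist_eq_norm]
  exact hds.le

end Pool.Agent.Helper60.CO
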