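import Mathlib
import Pool.Agent.Helper60.CO.Area3

set_option autoImplicit false

open MeasureTheory Metric Set Filter Topology Complex
open scoped ENNReal Real ContDiff

namespace Pool.Agent.Helper60.CO

open Pool.Agent.H720R2.HP (db pompeiu inv_ball_int)

theorem inv_int_ball (w : ℂ) (r : ℝ) : IntegrableOn (fun ζ : ℂ => (ζ - w)⁻¹) (ball w r) := by
  have h1 := inv_ball_int w r
  have h2 : Measurable fun ζ : ℂ => (ζ - w)⁻¹ := (measurable_id.sub_const w).inv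
  refine (integrable_norm_iff h2.aestronglyMeasurable).1 ?_
  refine h1.congr (Eventually.of_forall fun ζ => ?_)
  simp only [norm_inv, norm_sub_rev]

/-- `conj` times a cut off function -/
theorem cutoff {R : ℝ} (hR : 0 < R) : ∃ φ : ℂ → ℂ, ContDiff ℝ ∞ φ ∧ HasCompactSupport φ ∧
    (∀ ζ ∈ ball (0 : ℂ) R, φ ζ = starRingEnd ℂ ζ ∧ db φ ζ = 1) ∧
    ∀ ζ, R + 1 < ‖ζ‖ → db φ ζ = 0 := by
  let χ : ContDiffBump (0 : ℂ) := ⟨R, R + 1, hR, by linarith⟩
  refine ⟨fun ζ => (χ ζ : ℂ) * starRingEnd ℂ ζ, ?_, ?_, ?_, ?_⟩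
  · refine ContDiff.mul ?_ Complex.conjCLE.contDiff
    exact Complex.ofRealCLM.contDiff.comp χ.contDiff
  · refine HasCompactSupport.mul_right ?_
    refine χ.hasCompactSupport.comp_left (g := fun x : ℝ => (x : ℂ)) ?_
    simp
  · intro ζ hζ
    have h1 : (fun ζ : ℂ => (χ ζ : ℂ) * starRingEnd ℂ ζ) =ᶠ[𝓝 ζ] fun ζ => Complex.conjCLE ζ := by
      filter_upwards [isOpen_ball.mem_nhds hζ] with y hy
      rw [χ.one_of_mem_closedBall (ball_subset_closedBall hy)]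
      simp
    refine ⟨h1.self_of_nhds, ?_⟩
    unfold db
    rw [h1.fderiv_eq]
    have h2 : fderiv ℝ (fun ζ => Complex.conjCLE ζ) ζ = Complex.conjCLE :=
      Complex.conjCLE.hasFDerivAt.fderiv
    rw [h2]
    simp
  · intro ζ hζ
    have h1 : (fun ζ : ℂ => (χ ζ : ℂ) * starRingEnd ℂ ζ) =ᶠ[𝓝 ζ] fun _ => (0 : ℂ) := by
      have h2 : {y : ℂ | R + 1 < ‖y‖} ∈ 𝓝 ζ :=
        (isOpen_lt continuous_const continuous_norm).mem_nhds hζ
      filter_upwards [h2] with y hy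
      have h3 : χ y = 0 := by
        refine χ.zero_of_le_dist ?_
        rw [dist_zero_right]
        exact le_of_lt hy
      rw [h3]
      simp
    unfold db
    rw [h1.fderiv_eq]
    simp

/-- **A quantitative form of the theorem of Hartogs and Rosenthal** -/
theorem ratl_approx {K U : Set ℂ} (hK : IsCompact K) (hU : IsOpen U) (hKU : K ⊆ U) {A : ℝ}
    (hA : 0 < A) (hv : volume U ≤ ENNReal.ofReal A) {ε : ℝ} (hε : 0 < ε) :
    ∃ P Q : Polynomial ℂ, ∀ w ∈ K, Q.eval w ≠ 0 ∧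
      ‖starRingEnd ℂ w - P.eval w / Q.eval w‖ ≤ √(A / π) + ε := by
  have hpi := Real.pi_pos
  obtain ⟨R, hR0, hKR⟩ : ∃ R : ℝ, 0 < R ∧ K ⊆ ball 0 R := by
    obtain ⟨R, hR⟩ := hK.isBounded.subset_ball (0 : ℂ)
    exact ⟨max R 1, lt_of_lt_of_le one_pos (le_max_right _ _),
      hR.trans (ball_subset_ball (le_max_left _ _))⟩
  obtain ⟨φ, hφ1, hφ2, hφ3, hφ4⟩ := cutoff hR0
  set V : Set ℂ := U ∩ ball 0 R with hV
  have hVo : IsOpen V := hU.inter isOpen_ball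
  have hKV : K ⊆ V := subset_inter hKU hKR
  set L : Set ℂ := closedBall 0 (R + 1) \ V with hL
  have hLc : IsCompact L := (isCompact_closedBall 0 (R + 1)).diff hVo
  have hd : Disjoint K L := Set.disjoint_left.2 fun x hx hx' => hx'.2 (hKV hx)
  have hdbc : Continuous (db φ) := by
    have h1 : Continuous (fderiv ℝ φ) := hφ1.continuous_fderiv (by simp)
    unfold db
    have h2 := h1.clm_apply (continuous_const (y := (1 : ℂ)))
    have h3 := h1.clm_apply (continuous_const (y := (I : ℂ)))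
    exact (h2.add (continuous_const.mul h3)).div_const 2
  obtain ⟨P, Q, hPQ⟩ := int_closure hK hLc hd hdbc.continuousOn (ε := π * ε) (by positivity)
  refine ⟨-(Polynomial.C (π : ℂ)⁻¹ * P), Q, fun w hw => ⟨(hPQ w hw).1, ?_⟩⟩
  have hpc : (π : ℂ) ≠ 0 := by exact_mod_cast hpi.ne'
  -- integrability
  have hi0 : IntegrableOn (fun ζ : ℂ => (ζ - w)⁻¹) (closedBall 0 (R + 1)) := by
    refine (inv_int_ball w (R + 2 + ‖w‖)).mono_set fun ζ hζ => ?_
    rw [mem_closedBall_zero_iff] at hζ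
    rw [mem_ball, dist_eq_norm]
    have := norm_sub_le ζ w
    linarith
  have hi1 : IntegrableOn (fun ζ : ℂ => db φ ζ * (ζ - w)⁻¹) (closedBall 0 (R + 1)) :=
    hi0.continuousOn_mul hdbc.continuousOn (isCompact_closedBall 0 (R + 1))
  have hVs : V ⊆ closedBall 0 (R + 1) := fun ζ hζ =>
    closedBall_subset_closedBall (by linarith) (ball_subset_closedBall hζ.2)
  have e1 : ∫ ζ, db φ ζ / (ζ - w) = ∫ ζ in closedBall 0 (R + 1), db φ ζ * (ζ - w)⁻¹ := by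
    rw [← integral_indicator isClosed_closedBall.measurableSet]
    refine integral_congr_ae (Eventually.of_forall fun ζ => ?_)
    simp only
    by_cases h : ζ ∈ closedBall (0 : ℂ) (R + 1)
    · rw [indicator_of_mem h, div_eq_mul_inv]
    · rw [indicator_of_notMem h, hφ4 ζ (by rw [mem_closedBall_zero_iff] at h; exact not_le.1 h),
        zero_div]
  have e2 : ∫ ζ in closedBall 0 (R + 1), db φ ζ * (ζ - w)⁻¹ =
      (∫ ζ in V, (ζ - w)⁻¹) + ∫ ζ in L, db φ ζ * (ζ - w)⁻¹ := by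
    rw [← setIntegral_congr_fun (f := fun ζ : ℂ => db φ ζ * (ζ - w)⁻¹) (g := fun ζ => (ζ - w)⁻¹)
      hVo.measurableSet (fun ζ hζ => by simp only [(hφ3 ζ hζ.2).2, one_mul]),
      ← setIntegral_union (Set.disjoint_left.2 fun x hx hx' => hx'.2 hx) hLc.measurableSet
        (hi1.mono_set hVs) (hi1.mono_set sdiff_subset)]
    congr 2
    rw [hL, Set.union_sdiff_cancel hVs]
  have e3 := pompeiu hφ1 hφ2 w
  rw [e1, e2, (hφ3 w (hKR hw)).1] at e3
  have e4 : starRingEnd ℂ w - Polynomial.eval w (-(Polynomial.C (π : ℂ)⁻¹ * P)) / Polynomial.eval w Q =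
      -(π : ℂ)⁻¹ * (∫ ζ in V, (ζ - w)⁻¹) -
      (π : ℂ)⁻¹ * ((∫ ζ in L, db φ ζ * (ζ - w)⁻¹) - P.eval w / Q.eval w) := by
    have e5 : starRingEnd ℂ w = -(π : ℂ)⁻¹ * ((∫ ζ in V, (ζ - w)⁻¹) +
        ∫ ζ in L, db φ ζ * (ζ - w)⁻¹) := by
      rw [e3]
      field_simp
    rw [e5, Polynomial.eval_neg, Polynomial.eval_mul, Polynomial.eval_C]
    ring
  have hvV : volume V ≤ ENNReal.ofReal A := (measure_mono inter_subset_left).trans hv
  have e6 := ahlfors_beurling (U := V) (w := w) (hi0.mono_set hVs) hA hvV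
  rw [e4]
  have hnp : ‖(π : ℂ)⁻¹‖ = π⁻¹ := by
    rw [norm_inv, Complex.norm_real, Real.norm_of_nonneg hpi.le]
  have e7 : π⁻¹ * √(π * A) = √(A / π) := by
    have h1 : A / π = π⁻¹ ^ 2 * (π * A) := by field_simp
    rw [h1, Real.sqrt_mul (sq_nonneg π⁻¹) (π * A), Real.sqrt_sq (inv_nonneg.2 hpi.le)]
  calc ‖-(π : ℂ)⁻¹ * (∫ ζ in V, (ζ - w)⁻¹) -
      (π : ℂ)⁻¹ * ((∫ ζ in L, db φ ζ * (ζ - w)⁻¹) - P.eval w / Q.eval w)‖
      ≤ ‖-(π : ℂ)⁻¹ * (∫ ζ in V, (ζ - w)⁻¹)‖ +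
        ‖(π : ℂ)⁻¹ * ((∫ ζ in L, db φ ζ * (ζ - w)⁻¹) - P.eval w / Q.eval w)‖ := norm_sub_le _ _
    _ ≤ π⁻¹ * √(π * A) + π⁻¹ * (π * ε) := by
        rw [norm_mul, norm_mul, norm_neg, hnp]
        gcongr
        exact (hPQ w hw).2
    _ = √(A / π) + ε := by
        rw [e7]
        field_simp

end Pool.Agent.Helper60.CO
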