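import Mathlib
import Pool.Agent.Helper60.CO.Area4

/-!
On a plane open set of finite area the function `conj w` is close to a holomorphic function.
-/

set_option autoImplicit false

open MeasureTheory Metric Set Filter Topology Complex
open scoped ENNReal Real ContDiff

namespace Pool.Agent.Helper60.CO

open Pool.Agent.H720R2.HP (db pompeiu inv_ball_int)

theorem cauchy_diff {L : Set ℂ} (hL : IsCompact L) {g : ℂ → ℂ} (hg : Continuous g) :
    DifferentiableOn ℂ (fun w => ∫ ζ in L, g ζ * (ζ - w)⁻¹) Lᶜ := by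
  intro w0 hw0
  have hLo : IsOpen Lᶜ := hL.isClosed.isOpen_compl
  obtain ⟨r, hr, hrs⟩ := Metric.isOpen_iff.1 hLo w0 hw0
  obtain ⟨M, hM⟩ := hL.exists_bound_of_continuousOn hg.continuousOn
  have hd : ∀ ζ ∈ L, ∀ w ∈ ball w0 (r / 2), r / 2 ≤ ‖ζ - w‖ := by
    intro ζ hζ w hw
    by_contra hcon
    push Not at hcon
    have h9 : ζ ∈ ball w0 r := ?_
    · exact hrs h9 hζ
    rw [mem_ball, dist_eq_norm] at hw ⊢
    calc ‖ζ - w0‖ = ‖(ζ - w) + (w - w0)‖ := by rw [sub_add_sub_cancel]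
      _ ≤ ‖ζ - w‖ + ‖w - w0‖ := norm_add_le _ _
      _ < r := by linarith
  have hne : ∀ ζ ∈ L, ∀ w ∈ ball w0 (r / 2), ζ - w ≠ 0 := by
    intro ζ hζ w hw h0
    have := hd ζ hζ w hw
    rw [h0, norm_zero] at this
    linarith
  have hmeas : ∀ w : ℂ, Measurable fun ζ : ℂ => g ζ * (ζ - w)⁻¹ := fun w =>
    hg.measurable.mul (measurable_id.sub_const w).inv
  have hmeas' : ∀ w : ℂ, Measurable fun ζ : ℂ => g ζ * ((ζ - w)⁻¹) ^ 2 := fun w =>
    hg.measurable.mul ((measurable_id.sub_const w).inv.pow_const 2)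
  have hfin : volume L < ⊤ := hL.measure_lt_top
  have key := hasDerivAt_integral_of_dominated_loc_of_deriv_le (μ := volume.restrict L)
    (F := fun w ζ => g ζ * (ζ - w)⁻¹) (F' := fun w ζ => g ζ * ((ζ - w)⁻¹) ^ 2) (x₀ := w0)
    (s := ball w0 (r / 2)) (bound := fun _ => |M| * ((r / 2)⁻¹) ^ 2)
    (ball_mem_nhds w0 (by positivity))
    (Eventually.of_forall fun w => (hmeas w).aestronglyMeasurable)
    (by
      refine Measure.integrableOn_of_bounded (M := |M| * (r / 2)⁻¹) hfin.ne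
        (hmeas w0).aestronglyMeasurable ?_
      refine (ae_restrict_iff' hL.measurableSet).2 (Eventually.of_forall fun ζ hζ => ?_)
      rw [norm_mul, norm_inv]
      have h1 := hd ζ hζ w0 (mem_ball_self (by positivity))
      exact mul_le_mul ((hM ζ hζ).trans (le_abs_self M)) (inv_anti₀ (by positivity) h1)
        (by positivity) (abs_nonneg M))
    (hmeas' w0).aestronglyMeasurable
    (by
      refine (ae_restrict_iff' hL.measurableSet).2 (Eventually.of_forall fun ζ hζ w hw => ?_)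
      rw [norm_mul, norm_pow, norm_inv]
      have h1 := hd ζ hζ w hw
      have h2 : ‖ζ - w‖⁻¹ ≤ (r / 2)⁻¹ := inv_anti₀ (by positivity) h1
      exact mul_le_mul ((hM ζ hζ).trans (le_abs_self M))
        (pow_le_pow_left₀ (by positivity) h2 2) (by positivity) (abs_nonneg M))
    (by
      exact integrableOn_const hfin.ne)
    (by
      refine (ae_restrict_iff' hL.measurableSet).2 (Eventually.of_forall fun ζ hζ w hw => ?_)
      have h1 := ((hasDerivAt_id w).const_sub ζ).inv (hne ζ hζ w hw)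
      have h2 := h1.const_mul (g ζ)
      refine h2.congr_deriv ?_
      simp only [id]
      rw [neg_neg, inv_pow, one_div])
  exact key.2.differentiableAt.differentiableWithinAt

theorem holo_approx {V : Set ℂ} (hV : IsOpen V) {A R : ℝ}
    (hv : volume V ≤ ENNReal.ofReal A) (hR0 : 0 < R) (hVR : V ⊆ ball 0 R) :
    ∃ h : ℂ → ℂ, DifferentiableOn ℂ h V ∧ ∀ w ∈ V, ‖starRingEnd ℂ w - h w‖ ≤ √(A / π) := by
  have hpi := Real.pi_pos
  by_cases hA : A ≤ 0
  · rw [ENNReal.ofReal_eq_zero.2 hA] at hv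
    have h1 : V = ∅ := by
      by_contra hne
      have := hV.measure_pos volume (nonempty_iff_ne_empty.2 hne)
      exact absurd hv (not_le.2 this)
    exact ⟨fun _ => 0, differentiableOn_const _, fun w hw => by rw [h1] at hw; exact hw.elim⟩
  push Not at hA
  obtain ⟨φ, hφ1, hφ2, hφ3, hφ4⟩ := cutoff hR0
  set L : Set ℂ := closedBall 0 (R + 1) \ V with hL
  have hLc : IsCompact L := (isCompact_closedBall 0 (R + 1)).diff hV
  have hdbc : Continuous (db φ) := by
    have h1 : Continuous (fderiv ℝ φ) := hφ1.continuous_fderiv (by simp)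
    unfold db
    have h2 := h1.clm_apply (continuous_const (y := (1 : ℂ)))
    have h3 := h1.clm_apply (continuous_const (y := (I : ℂ)))
    exact (h2.add (continuous_const.mul h3)).div_const 2
  refine ⟨fun w => -(π : ℂ)⁻¹ * ∫ ζ in L, db φ ζ * (ζ - w)⁻¹, ?_, fun w hw => ?_⟩
  · refine DifferentiableOn.const_mul ((cauchy_diff hLc hdbc).mono fun w hw hw' => hw'.2 hw) _
  -- integrability
  have hi0 : IntegrableOn (fun ζ : ℂ => (ζ - w)⁻¹) (closedBall 0 (R + 1)) := by
    refine (inv_int_ball w (R + 2 + ‖w‖)).mono_set fun ζ hζ => ?_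
    rw [mem_closedBall_zero_iff] at hζ
    rw [mem_ball, dist_eq_norm]
    have := norm_sub_le ζ w
    linarith
  have hi1 : IntegrableOn (fun ζ : ℂ => db φ ζ * (ζ - w)⁻¹) (closedBall 0 (R + 1)) :=
    hi0.continuousOn_mul hdbc.continuousOn (isCompact_closedBall 0 (R + 1))
  have hVs : V ⊆ closedBall 0 (R + 1) := fun ζ hζ =>
    closedBall_subset_closedBall (by linarith) (ball_subset_closedBall (hVR hζ))
  have e1 : ∫ ζ, db φ ζ / (ζ - w) = ∫ ζ in closedBall 0 (R + 1), db φ ζ * (ζ - w)⁻¹ := by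
    rw [← integral_indicator isClosed_closedBall.measurableSet]
    refine integral_congr_ae (Eventually.of_forall fun ζ => ?_)
    simp only
    by_cases h : ζ ∈ closedBall (0 : ℂ) (R + 1)
    · rw [indicator_of_mem h, div_eq_mul_inv]
    · rw [indicator_of_notMem h, hφ4 ζ (by rw [mem_closedBall_zero_iff] at h; exact not_le.1 h),
        zero_div]
  have e2 : ∫ ζ in closedBall 0 (R + 1), db φ ζ * (ζ - w)⁻¹ =
      (∫ ζ in V, (ζ - w)⁻¹) + ∫ ζ in L, db φ ζ * (ζ - w)⁻¹ := by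
    rw [← setIntegral_congr_fun (f := fun ζ : ℂ => db φ ζ * (ζ - w)⁻¹) (g := fun ζ => (ζ - w)⁻¹)
      hV.measurableSet (fun ζ hζ => by simp only [(hφ3 ζ (hVR hζ)).2, one_mul]),
      ← setIntegral_union (Set.disjoint_left.2 fun x hx hx' => hx'.2 hx) hLc.measurableSet
        (hi1.mono_set hVs) (hi1.mono_set sdiff_subset)]
    congr 2
    rw [hL, Set.union_sdiff_cancel hVs]
  have e3 := pompeiu hφ1 hφ2 w
  rw [e1, e2, (hφ3 w (hVR hw)).1] at e3
  have hpc : (π : ℂ) ≠ 0 := by exact_mod_cast hpi.ne'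
  have e4 : starRingEnd ℂ w - -(π : ℂ)⁻¹ * (∫ ζ in L, db φ ζ * (ζ - w)⁻¹) =
      -(π : ℂ)⁻¹ * (∫ ζ in V, (ζ - w)⁻¹) := by
    have e5 : starRingEnd ℂ w = -(π : ℂ)⁻¹ * ((∫ ζ in V, (ζ - w)⁻¹) +
        ∫ ζ in L, db φ ζ * (ζ - w)⁻¹) := by
      rw [e3]
      field_simp
    rw [e5]
    ring
  have e6 := ahlfors_beurling (U := V) (w := w) (hi0.mono_set hVs) hA hv
  simp only
  rw [e4]
  have hnp : ‖(π : ℂ)⁻¹‖ = π⁻¹ := by
    rw [norm_inv, Complex.norm_real, Real.norm_of_nonneg hpi.le]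
  have e7 : π⁻¹ * √(π * A) = √(A / π) := by
    have h1 : A / π = π⁻¹ ^ 2 * (π * A) := by field_simp
    rw [h1, Real.sqrt_mul (sq_nonneg π⁻¹) (π * A), Real.sqrt_sq (inv_nonneg.2 hpi.le)]
  rw [norm_mul, norm_neg, hnp, ← e7]
  gcongr

end Pool.Agent.Helper60.CO
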