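import Mathlib
import Pool.Agent.Helper60.CO.Area4

set_option autoImplicit false

open MeasureTheory Metric Set Filter Topology Complex
open scoped ENNReal Real

namespace Pool.Agent.Helper60.CO

/-- Functions whose ranges have small total area: a combination of the functions with coefficients
which are polynomials in the functions is bounded from below. -/
theorem hull_area {X : Type} {W : Set X} {N : ℕ} {F : Fin N → X → ℂ}
    (hb : ∀ j, ∃ M : ℝ, ∀ x ∈ W, ‖F j x‖ ≤ M) (S : Finset (Fin N)) {c : ℝ} (hc : 0 < c)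
    (hl : ∀ x ∈ W, c ≤ ∑ j ∈ S, ‖F j x‖ ^ 2)
    (hv : ∑ j ∈ S, volume (closure (F j '' W)) < ENNReal.ofReal (π * c)) :
    ∃ (P Q : Fin N → Polynomial ℂ) (ε : ℝ), 0 < ε ∧ ∀ x ∈ W,
      ε ≤ ‖∑ j ∈ S, F j x * ((P j).eval (F j x) * ∏ i ∈ S.erase j, (Q i).eval (F i x))‖ := by
  classical
  have hpi := Real.pi_pos
  have hKc : ∀ j, IsCompact (closure (F j '' W)) := by
    intro j
    obtain ⟨M, hM⟩ := hb j
    refine isCompact_of_isClosed_isBounded isClosed_closure (Bornology.IsBounded.closure ?_)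
    refine isBounded_iff_forall_norm_le.2 ⟨M, ?_⟩
    rintro _ ⟨x, hx, rfl⟩
    exact hM x hx
  have hfin : ∀ j, volume (closure (F j '' W)) ≠ ⊤ := fun j => (hKc j).measure_lt_top.ne
  obtain ⟨t, ht⟩ : ∃ t : Fin N → ℝ, ∀ j, t j = (volume (closure (F j '' W))).toReal :=
    ⟨_, fun _ => rfl⟩
  have ht0 : ∀ j, 0 ≤ t j := fun j => by rw [ht]; exact ENNReal.toReal_nonneg
  have htv : ∀ j, volume (closure (F j '' W)) = ENNReal.ofReal (t j) := fun j => by
    rw [ht, ENNReal.ofReal_toReal (hfin j)]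
  have hsum : ∑ j ∈ S, t j < π * c := by
    simp_rw [htv] at hv
    rw [← ENNReal.ofReal_sum_of_nonneg fun j _ => ht0 j] at hv
    exact (ENNReal.ofReal_lt_ofReal_iff (mul_pos hpi hc)).1 hv
  obtain ⟨g, hg⟩ : ∃ g : ℝ, g = π * c - ∑ j ∈ S, t j := ⟨_, rfl⟩
  have hg0 : 0 < g := by rw [hg]; linarith
  obtain ⟨d, hd⟩ : ∃ d : ℝ, d = g / (2 * (S.card + 1)) := ⟨_, rfl⟩
  have hcard : (0 : ℝ) ≤ S.card := Nat.cast_nonneg _
  have hd0 : 0 < d := by rw [hd]; exact div_pos hg0 (by linarith)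
  obtain ⟨a, ha⟩ : ∃ a : Fin N → ℝ, ∀ j, a j = t j + d := ⟨_, fun _ => rfl⟩
  have ha0 : ∀ j, 0 < a j := fun j => by
    have := ht0 j
    rw [ha]
    linarith
  have hasum : ∑ j ∈ S, a j < π * c := by
    simp_rw [ha]
    rw [Finset.sum_add_distrib, Finset.sum_const, nsmul_eq_mul]
    have h1 : (S.card : ℝ) * d ≤ g / 2 := by
      rw [hd, mul_div_assoc', div_le_div_iff₀ (by linarith) two_pos]
      nlinarith
    linarith
  have hU : ∀ j, ∃ U : Set ℂ, closure (F j '' W) ⊆ U ∧ IsOpen U ∧ volume U < ENNReal.ofReal (a j) := by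
    intro j
    obtain ⟨U, h1, h2, h3⟩ := (closure (F j '' W)).exists_isOpen_lt_of_lt
      (ENNReal.ofReal (a j)) (by
        rw [htv]
        refine (ENNReal.ofReal_lt_ofReal_iff (ha0 j)).2 ?_
        rw [ha]
        linarith)
    exact ⟨U, h1, h2, h3⟩
  choose U hU1 hU2 hU3 using hU
  -- the error
  obtain ⟨θ, hθ⟩ : ∃ θ : ℝ, θ = √(∑ j ∈ S, (√(a j / π)) ^ 2) := ⟨_, rfl⟩
  have hsq : ∀ j, (√(a j / π)) ^ 2 = a j / π := fun j =>
    Real.sq_sqrt (div_nonneg (ha0 j).le hpi.le)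
  have hθc : θ < √c := by
    rw [hθ]
    refine Real.sqrt_lt_sqrt (Finset.sum_nonneg fun _ _ => sq_nonneg _) ?_
    simp_rw [hsq]
    rw [← Finset.sum_div, div_lt_iff₀ hpi]
    linarith
  have hθ0 : 0 ≤ θ := by rw [hθ]; exact Real.sqrt_nonneg _
  obtain ⟨k, hk⟩ : ∃ k : ℝ, k = √(S.card : ℝ) := ⟨_, rfl⟩
  have hk0 : 0 ≤ k := by rw [hk]; exact Real.sqrt_nonneg _
  obtain ⟨ε', hε'⟩ : ∃ ε' : ℝ, ε' = (√c - θ) / (2 * (k + 1)) := ⟨_, rfl⟩
  have hε'0 : 0 < ε' := by rw [hε']; exact div_pos (by linarith) (by linarith)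
  obtain ⟨θ', hθ'⟩ : ∃ θ' : ℝ, θ' = θ + ε' * k := ⟨_, rfl⟩
  have hθ'c : θ' < √c := by
    rw [hθ']
    have h1 : ε' * k ≤ (√c - θ) / 2 := by
      rw [hε', div_mul_eq_mul_div, div_le_div_iff₀ (by linarith) two_pos]
      nlinarith
    linarith
  have hP : ∀ j, ∃ PQ : Polynomial ℂ × Polynomial ℂ, ∀ w ∈ closure (F j '' W),
      PQ.2.eval w ≠ 0 ∧ ‖starRingEnd ℂ w - PQ.1.eval w / PQ.2.eval w‖ ≤ √(a j / π) + ε' := by
    intro j
    obtain ⟨P, Q, h⟩ := ratl_approx (hKc j) (hU2 j) (hU1 j) (ha0 j) (hU3 j).le hε'0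
    exact ⟨(P, Q), h⟩
  choose PQ hPQ using hP
  -- lower bounds for the denominators
  have hq : ∀ j, ∃ q : ℝ, 0 < q ∧ ∀ w ∈ closure (F j '' W), q ≤ ‖(PQ j).2.eval w‖ := by
    intro j
    rcases (closure (F j '' W)).eq_empty_or_nonempty with he | hne
    · exact ⟨1, one_pos, fun w hw => by rw [he] at hw; exact hw.elim⟩
    · obtain ⟨w0, hw0, hmin⟩ := (hKc j).exists_isMinOn hne
        ((PQ j).2.continuous.norm.continuousOn (s := closure (F j '' W)))
      exact ⟨‖(PQ j).2.eval w0‖, norm_pos_iff.2 (hPQ j w0 hw0).1, fun w hw => hmin hw⟩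
  choose q hq0 hq1 using hq
  refine ⟨fun j => (PQ j).1, fun j => (PQ j).2, √c * (√c - θ') * ∏ j ∈ S, q j,
    mul_pos (mul_pos (Real.sqrt_pos.2 hc) (by linarith)) (Finset.prod_pos fun j _ => hq0 j),
    fun x hx => ?_⟩
  have hmem : ∀ j, F j x ∈ closure (F j '' W) := fun j => subset_closure ⟨x, hx, rfl⟩
  obtain ⟨r, hr⟩ : ∃ r : Fin N → ℂ, ∀ j, r j = (PQ j).1.eval (F j x) / (PQ j).2.eval (F j x) :=
    ⟨_, fun _ => rfl⟩
  have hid : ∑ j ∈ S, F j x * ((PQ j).1.eval (F j x) * ∏ i ∈ S.erase j, (PQ i).2.eval (F i x)) =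
      (∑ j ∈ S, F j x * r j) * ∏ i ∈ S, (PQ i).2.eval (F i x) := by
    rw [Finset.sum_mul]
    refine Finset.sum_congr rfl fun j hj => ?_
    rw [← Finset.mul_prod_erase S _ hj, hr]
    have := (hPQ j (F j x) (hmem j)).1
    field_simp
  rw [hid, norm_mul]
  refine mul_le_mul ?_ ?_ (Finset.prod_nonneg fun j _ => (hq0 j).le) (norm_nonneg _)
  · -- the main estimate
    obtain ⟨s, hs⟩ : ∃ s : ℝ, s = √(∑ j ∈ S, ‖F j x‖ ^ 2) := ⟨_, rfl⟩
    have hs2 : s ^ 2 = ∑ j ∈ S, ‖F j x‖ ^ 2 := by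
      rw [hs, Real.sq_sqrt (Finset.sum_nonneg fun _ _ => sq_nonneg _)]
    have hs0 : 0 ≤ s := by rw [hs]; exact Real.sqrt_nonneg _
    have hsc : √c ≤ s := by
      rw [hs]
      exact Real.sqrt_le_sqrt (hl x hx)
    have h1 : ∑ j ∈ S, F j x * r j = ((s ^ 2 : ℝ) : ℂ) -
        ∑ j ∈ S, F j x * (starRingEnd ℂ (F j x) - r j) := by
      rw [hs2]
      push_cast
      rw [← Finset.sum_sub_distrib]
      refine Finset.sum_congr rfl fun j _ => ?_
      rw [mul_sub, Complex.mul_conj, Complex.normSq_eq_norm_sq]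
      push_cast
      ring
    have h2 : ‖∑ j ∈ S, F j x * (starRingEnd ℂ (F j x) - r j)‖ ≤ s * θ' := by
      refine (norm_sum_le _ _).trans ?_
      calc ∑ j ∈ S, ‖F j x * (starRingEnd ℂ (F j x) - r j)‖
          ≤ ∑ j ∈ S, (‖F j x‖ * √(a j / π) + ‖F j x‖ * ε') := by
            refine Finset.sum_le_sum fun j _ => ?_
            rw [norm_mul, ← mul_add, hr]
            exact mul_le_mul_of_nonneg_left (hPQ j _ (hmem j)).2 (norm_nonneg _)
        _ = ∑ j ∈ S, ‖F j x‖ * √(a j / π) + ε' * ∑ j ∈ S, ‖F j x‖ * 1 := by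
            rw [Finset.sum_add_distrib, Finset.mul_sum]
            congr 1
            refine Finset.sum_congr rfl fun j _ => ?_
            ring
        _ ≤ s * θ + ε' * (s * k) := by
            refine add_le_add ?_ (mul_le_mul_of_nonneg_left ?_ hε'0.le)
            · rw [hs, hθ]
              exact Real.sum_mul_le_sqrt_mul_sqrt S _ _
            · rw [hs, hk]
              have := Real.sum_mul_le_sqrt_mul_sqrt S (fun j => ‖F j x‖) (fun _ => (1 : ℝ))
              simpa using this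
        _ = s * θ' := by
            rw [hθ']
            ring
    have h3 : s ^ 2 - s * θ' ≤ ‖∑ j ∈ S, F j x * r j‖ := by
      rw [h1]
      have h4 := norm_sub_norm_le ((s ^ 2 : ℝ) : ℂ) (∑ j ∈ S, F j x * (starRingEnd ℂ (F j x) - r j))
      rw [Complex.norm_real, Real.norm_of_nonneg (sq_nonneg s)] at h4
      linarith
    refine le_trans ?_ h3
    have h5 : 0 ≤ √c := Real.sqrt_nonneg c
    nlinarith
  · rw [norm_prod]
    exact Finset.prod_le_prod (fun j _ => (hq0 j).le) fun j _ => hq1 j _ (hmem j)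

end Pool.Agent.Helper60.CO
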