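import Mathlib
import Pool.Graph.R_pool_sql_team_seeded_620a6dc7.P157G.FamL

set_option autoImplicit false

open MeasureTheory Metric Set Filter Topology Complex

namespace Pool.Agent.Helper60.CO

open Pool.Agent.P157G

/-- the generators at `p` -/
def Gn (D : Set (ℂ × ℂ)) (p : ℂ × ℂ) : Set (ℂ × ℂ → ℂ) :=
  {s | ∃ (f : ℂ → ℂ) (ψ : ℂ × ℂ → ℂ), DifferentiableOn ℂ f (ball 0 1) ∧
    (∃ C : ℝ, ∀ w ∈ ball (0 : ℂ) 1, ‖f w‖ ≤ C) ∧ AnalyticAt ℂ ψ p ∧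
    (∀ᶠ z in 𝓝 p, z ∈ D → ‖ψ z‖ < 1) ∧ ∀ z, s z = f (ψ z)}

/-- the cell -/
def Cl (D : Set (ℂ × ℂ)) (p : ℂ × ℂ) (T : Finset (ℂ × ℂ → ℂ)) (lam : (ℂ × ℂ → ℂ) → ℂ) (ε : ℝ) :
    Set (ℂ × ℂ) :=
  {z | z ∈ D ∧ z ∈ ball p ε ∧ ∀ s ∈ T, ‖s z - lam s‖ < ε}

theorem dfdiv {f : ℂ × ℂ → ℂ} {s : Set (ℂ × ℂ)} (h : DifferentiableOn ℂ f s) (c : ℂ) :
    DifferentiableOn ℂ (fun x => f x / c) s := by
  simp only [div_eq_mul_inv]
  exact h.mul (differentiableOn_const _)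

theorem loc_main {ρ : ℂ × ℂ → ℝ} (h : NF ρ) {N : ℕ} {F : Fin N → ℂ × ℂ → ℂ}
    (hF : ∀ j, ∃ M : ℝ, HBd {x | ρ x < 0} M (F j)) (h0 : ∀ x, ρ x < 0 → ∃ j, F j x ≠ 0)
    (hloc : ∀ p ∈ frontier {x | ρ x < 0}, ∀ lam : (ℂ × ℂ → ℂ) → ℂ,
      ∃ T : Finset (ℂ × ℂ → ℂ), (∀ s ∈ T, s ∈ Gn {x | ρ x < 0} p) ∧ ∃ ε : ℝ, 0 < ε ∧
        ∃ H : Fin N → ℂ × ℂ → ℂ,
          (∀ j, ∃ M : ℝ, HBd ({x | ρ x < 0} ∩ ball p ε) M (H j)) ∧
          ∀ z ∈ Cl {x | ρ x < 0} p T lam ε, ε ≤ ‖∑ j, F j z * H j z‖) :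
    ∃ (C : ℝ) (g : Fin N → ℂ × ℂ → ℂ), (∀ j, HBd {x | ρ x < 0} C (g j)) ∧
      ∀ x, ρ x < 0 → ∑ j, F j x * g j x = 1 := by
  classical
  -- a common bound
  choose M hM using hF
  obtain ⟨R, hR0, hR⟩ : ∃ R : ℝ, 0 < R ∧ ∀ j, HBd {x | ρ x < 0} R (F j) := by
    refine ⟨∑ j, |M j| + 1, by positivity, fun j => ⟨(hM j).1, fun x hx => ?_⟩⟩
    have h1 : |M j| ≤ ∑ j, |M j| := Finset.single_le_sum (f := fun j => |M j|)
      (fun _ _ => abs_nonneg _) (Finset.mem_univ j)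
    have h2 := (hM j).2 x hx
    have h3 := le_abs_self (M j)
    linarith
  have hRc : (R : ℂ) ≠ 0 := by exact_mod_cast hR0.ne'
  have hRn : ‖(R : ℂ)‖ = R := by rw [Complex.norm_real, Real.norm_of_nonneg hR0.le]
  obtain ⟨E, hE⟩ : ∃ E : Unit → Fin N → ℂ × ℂ → ℂ, ∀ i j x, E i j x = F j x / R :=
    ⟨fun _ j x => F j x / R, fun _ _ _ => rfl⟩
  have hE' : ∀ i j, E i j = fun x => F j x / R := fun i j => funext (hE i j)
  have hEb : ∀ i j, HBd {x | ρ x < 0} 1 (E i j) := by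
    intro i j
    refine ⟨?_, fun x hx => ?_⟩
    · rw [hE']
      exact dfdiv (hR j).1 _
    · rw [hE, norm_div, hRn, div_le_one hR0]
      exact (hR j).2 x hx
  by_contra hcon
  have hns : ¬ ∃ C : ℝ, ∀ i : Unit, ∃ g : Fin N → ℂ × ℂ → ℂ, (∀ j, HBd {x | ρ x < 0} C (g j)) ∧
      ∀ x ∈ {x | ρ x < 0}, ∑ j, E i j x * g j x = 1 := by
    rintro ⟨C, hC⟩
    obtain ⟨g, hg, hgs⟩ := hC ()
    refine hcon ⟨C / R, fun j x => g j x / R, fun j => ⟨dfdiv (hg j).1 _, fun x hx => ?_⟩,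
      fun x hx => ?_⟩
    · rw [norm_div, hRn]
      exact div_le_div_of_nonneg_right ((hg j).2 x hx) hR0.le
    · rw [← hgs x hx]
      refine Finset.sum_congr rfl fun j _ => ?_
      rw [hE]
      field_simp
  have hDo : IsOpen {x | ρ x < 0} := isOpen_lt h.smooth.continuous continuous_const
  have hbd : Bornology.IsBounded {x | ρ x < 0} := h.bdd.subset fun x (hx : ρ x < 0) => hx.le
  have hcl : closure {x | ρ x < 0} ⊆ {x | ρ x ≤ 0} :=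
    closure_minimal (fun x (hx : ρ x < 0) => hx.le) (isClosed_le h.smooth.continuous continuous_const)
  obtain ⟨C₀, hC₀, hS⟩ := slv_nf h
  let tJ : TopologicalSpace Unit := ⊥
  have dJ : DiscreteTopology Unit := ⟨rfl⟩
  obtain ⟨χ, hχ⟩ := zeroD hDo hEb hns
  obtain ⟨p, hp, hP⟩ := char_pt hDo hbd (fun p r hr => div_lem hDo hbd hC₀ hS p hr) χ
  by_cases hpD : p ∈ {x | ρ x < 0}
  · obtain ⟨j, hj⟩ := h0 p hpD
    have hpos : 0 < ∑ j, ‖E () j p‖ := by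
      refine Finset.sum_pos' (fun _ _ => norm_nonneg _) ⟨j, Finset.mem_univ _, ?_⟩
      rw [hE, norm_pos_iff]
      exact div_ne_zero hj hRc
    exact int_pt hDo hpD χ hP hEb hpos (fun _ => le_rfl) hχ
  have hpf : p ∈ frontier {x | ρ x < 0} := by
    rw [hDo.frontier_eq]
    exact ⟨hp, hpD⟩
  have hp0 : ρ p = 0 := le_antisymm (hcl hp) (not_lt.1 hpD)
  obtain ⟨v, hv, hva⟩ := vchar hDo (fun r hr => loc_lem h hp0.le hr) χ hP
  have hv0 : ∀ j, v (fun i => E i j) = 0 := by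
    intro j
    rw [hva (mkA hDo (f := fun i => E i j) (fun i => (hEb i j).1) (C := 1) (fun i => (hEb i j).2))
      (fun i => E i j) (fun i => (hEb i j).1) (fun i x => rfl)]
    exact hχ j _ fun i x => rfl
  obtain ⟨T, hT, ε, hε, H, hH, hl⟩ := hloc p hpf (fun s => v (fun _ => s))
  -- the function `G`
  have hEn : ∀ j, Bnr {x | ρ x < 0} p (fun i => E i j) := fun j =>
    ⟨1, 1, one_pos, zero_le_one, fun i => ⟨(hEb i j).1.mono inter_subset_left,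
      fun x hx => (hEb i j).2 x hx.1⟩⟩
  have hHn : ∀ j, Bnr {x | ρ x < 0} p (fun _ : Unit => H j) := by
    intro j
    obtain ⟨M', hM'⟩ := hH j
    exact ⟨ε, max M' 0, hε, le_max_right _ _, fun _ => ⟨hM'.1, fun x hx =>
      (hM'.2 x hx).trans (le_max_left _ _)⟩⟩
  have hb : ∀ j, Bnr {x | ρ x < 0} p (fun i x => E i j x * H j x) := fun j => L4_mul (hEn j) (hHn j)
  have hG := L4_sum hv (Finset.univ : Finset (Fin N)) (fun j i x => E i j x * H j x) hb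
  have hG0 : v (fun i x => ∑ j, E i j x * H j x) = 0 := by
    rw [hG.2]
    refine Finset.sum_eq_zero fun j _ => ?_
    have := hv.mul _ _ (hEn j) (hHn j)
    rw [this, hv0, zero_mul]
  -- the generators
  have hTe : ∀ s : T, ∃ q : (ℂ → ℂ) × (ℂ × ℂ → ℂ), DifferentiableOn ℂ q.1 (ball 0 1) ∧
    (∃ C : ℝ, ∀ w ∈ ball (0 : ℂ) 1, ‖q.1 w‖ ≤ C) ∧ AnalyticAt ℂ q.2 p ∧
    (∀ᶠ z in 𝓝 p, z ∈ {x | ρ x < 0} → ‖q.2 z‖ < 1) ∧ ∀ z, s.1 z = q.1 (q.2 z) := by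
    intro s
    obtain ⟨f, ψ, h1, h2, h3, h4, h5⟩ := hT s.1 s.2
    exact ⟨(f, ψ), h1, h2, h3, h4, h5⟩
  choose q hq1 hq2 hq3 hq4 hq5 using hTe
  choose Cq hCq using hq2
  let e := T.equivFin
  have hCq' : ∀ s : T, |Cq s| ≤ ∑ s, |Cq s| := fun s =>
    Finset.single_le_sum (f := fun s => |Cq s|) (fun _ _ => abs_nonneg _) (Finset.mem_univ s)
  obtain ⟨i, x, hx, hx1, hx2⟩ := clus h hp0 hv hG.1 T.card
    (f := fun k _ => (q (e.symm k)).1) (fun k _ => hq1 _)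
    ⟨∑ s, |Cq s|, fun k _ w hw => ((hCq _ w hw).trans (le_abs_self _)).trans (hCq' _)⟩
    (ψ := fun k => (q (e.symm k)).2) (fun k => hq3 _) (fun k => hq4 _)
    (η := min ε (ε / R)) (r := ε) (lt_min hε (by positivity)) hε
  have hxc : x ∈ Cl {x | ρ x < 0} p T (fun s => v (fun _ => s)) ε := by
    refine ⟨hx.1, hx.2, fun s hs => ?_⟩
    have h1 := (hx1 (e ⟨s, hs⟩)).trans_le (min_le_left _ _)
    simp only [Equiv.symm_apply_apply] at h1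
    have h2 : (fun z => (q ⟨s, hs⟩).1 ((q ⟨s, hs⟩).2 z)) = s := by
      funext z
      exact (hq5 ⟨s, hs⟩ z).symm
    rw [← hq5 ⟨s, hs⟩ x] at h1
    rw [h2] at h1
    exact h1
  have h1 := hl x hxc
  rw [hG0, sub_zero] at hx2
  have h2 : ∑ j, E i j x * H j x = (∑ j, F j x * H j x) / R := by
    rw [Finset.sum_div]
    refine Finset.sum_congr rfl fun j _ => ?_
    rw [hE]
    ring
  rw [h2, norm_div, hRn] at hx2
  have h3 := hx2.trans_le (min_le_right _ _)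
  rw [div_lt_div_iff_of_pos_right hR0] at h3
  linarith

end Pool.Agent.Helper60.CO
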