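import Mathlib
import Pool.Graph.R_pool_sql_team_seeded_620a6dc7.P157D.LocU
import Pool.Agent.Helper60.CO.M4

/-!
All functions of the localising family are removed (after `Pool.Agent.P157D.locU`).
-/

set_option autoImplicit false

open MeasureTheory Metric Set Filter Topology Complex

namespace Pool.Agent.Helper60.CO

open Pool.Agent.P157D
open Pool.Agent.Y263.LF (Bez)

theorem auxM (K : ℕ) (J : Type) [Fintype J] {r κ L δ Q : ℝ} (hr : 0 < r) (hκ : 0 < κ) (hκ1 : κ ≤ 1)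
    (hL : 1 ≤ L) (hδ : 0 < δ) (hδ1 : δ ≤ 1) (hQ : 0 ≤ Q) (n : ℕ) :
    ∃ ε C r₁ σ₀ : ℝ, 0 < ε ∧ ε ≤ 1 ∧ 0 ≤ C ∧ 0 < r₁ ∧ r₁ ≤ r ∧ 0 < σ₀ ∧
    ∀ (R : ℂ × ℂ → ℝ) (W z : Fin K → ℂ × ℂ → ℂ), LC r κ L σ₀ R W z → ∀ (f : Fin K → ℂ → ℂ) (η : ℝ), 0 < η →
      (∀ k, DifferentiableOn ℂ (f k) {w : ℂ | -η < w.im}) →
      (∀ k, ∀ w : ℂ, 0 ≤ w.im → ‖f k w‖ ≤ 1) →
      (∀ k, ∃ c : ℂ, Tendsto (f k) (Bornology.cobounded ℂ ⊓ 𝓟 {w : ℂ | 0 ≤ w.im}) (𝓝 c)) →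
      ∀ G : J → ℂ × ℂ → ℂ, (∀ j, DifferentiableOn ℂ (G j) {x | x ∈ Bo r ∧ 0 < R x}) →
      (∀ j, ∀ x ∈ Bo r, 0 < R x → ‖G j x‖ ≤ 1) →
      Bez (DB r R W f Finset.univ δ) (SE W f G) Q →
      ∀ I : Finset (Fin K), I.card + n = K → Bez (DB r₁ R W f I ε) (SE W f G) C := by
  induction n with
  | zero =>
    refine ⟨δ, Q, r, 1, hδ, hδ1, hQ, hr, le_rfl, one_pos, ?_⟩
    intro R W z hLC f η hη hf hfb hfc G hG hGb hGl I hI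
    have hI' : I = Finset.univ := by
      rw [← Finset.card_eq_iff_eq_univ]
      simpa using hI
    subst hI'
    exact hGl
  | succ n ih =>
    obtain ⟨ε, C, r₁, σ₀, hε, hε1, hC, hr₁, hr₁r, hσ₀, H⟩ := ih
    obtain ⟨ε₁, C', r₂, σ₁, hε₁, hε₁ε, hC', hr₂, hr₂r₁, hσ₁, H'⟩ :=
      step4M K J hr₁ hr₁r hκ hκ1 hL hε hε1 hC
    refine ⟨ε₁, C', r₂, min σ₀ σ₁, hε₁, hε₁ε.trans hε1, hC', hr₂, hr₂r₁.trans hr₁r,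
      lt_min hσ₀ hσ₁, ?_⟩
    intro R W z hLC f η hη hf hfb hfc G hG hGb hGl I hI
    have hcard : I.card < Fintype.card (Fin K) := by
      rw [Fintype.card_fin]; omega
    obtain ⟨k, hk⟩ : ∃ k, k ∉ I := by
      by_contra hcon
      push Not at hcon
      have : I = Finset.univ := Finset.eq_univ_iff_forall.2 hcon
      rw [this, Finset.card_univ] at hcard
      exact lt_irrefl _ hcard
    have h1 := H R W z (D10_mono_D10 hLC (min_le_left _ _)) f η hη hf hfb hfc G hG hGb hGl (insert k I)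
      (by rw [Finset.card_insert_of_notMem hk]; omega)
    exact H' R W z (D10_mono_D10 hLC (min_le_right _ _)) f η hη hf hfb hfc G hG hGb I k hk h1

theorem locUM (K : ℕ) (J : Type) [Fintype J] {r κ L δ Q : ℝ} (hr : 0 < r) (hκ : 0 < κ) (hκ1 : κ ≤ 1)
    (hL : 1 ≤ L) (hδ : 0 < δ) (hδ1 : δ ≤ 1) (hQ : 0 ≤ Q) :
    ∃ C r₁ σ₀ : ℝ, 0 < r₁ ∧ r₁ ≤ r ∧ 0 < σ₀ ∧
    ∀ (R : ℂ × ℂ → ℝ) (W z : Fin K → ℂ × ℂ → ℂ), LC r κ L σ₀ R W z →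
      ∀ (f : Fin K → ℂ → ℂ) (η : ℝ), 0 < η →
      (∀ k, DifferentiableOn ℂ (f k) {w : ℂ | -η < w.im}) →
      (∀ k, ∀ w : ℂ, 0 ≤ w.im → ‖f k w‖ ≤ 1) →
      (∀ k, ∃ c : ℂ, Tendsto (f k) (Bornology.cobounded ℂ ⊓ 𝓟 {w : ℂ | 0 ≤ w.im}) (𝓝 c)) →
      ∀ G : J → ℂ × ℂ → ℂ, (∀ j, DifferentiableOn ℂ (G j) {x | x ∈ Bo r ∧ 0 < R x}) →
      (∀ j, ∀ x ∈ Bo r, 0 < R x → ‖G j x‖ ≤ 1) →
      Bez (DB r R W f Finset.univ δ) (SE W f G) Q →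
      Bez {x | x ∈ Bo r₁ ∧ 0 < R x} (SE W f G) C := by
  obtain ⟨ε, C, r₁, σ₀, hε, hε1, hC, hr₁, hr₁r, hσ₀, H⟩ := auxM K J hr hκ hκ1 hL hδ hδ1 hQ K
  refine ⟨C, r₁, σ₀, hr₁, hr₁r, hσ₀, ?_⟩
  intro R W z hLC f η hη hf hfb hfc G hG hGb hGl
  have h := H R W z hLC f η hη hf hfb hfc G hG hGb hGl ∅ (by simp)
  have hD : DB r₁ R W f ∅ ε = {x | x ∈ Bo r₁ ∧ 0 < R x} := by
    ext x
    simp [DB]
  rwa [hD] at h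

end Pool.Agent.Helper60.CO
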