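import Mathlib
import Pool.Graph.R_pool_sql_team_seeded_620a6dc7.P157D.LocV
import Pool.Agent.Helper60.CO.MU

/-!
The localising functions need not extend beyond the half plane (after `Pool.Agent.P157D.locV`).
-/

set_option autoImplicit false

open MeasureTheory Metric Set Filter Topology Complex

namespace Pool.Agent.Helper60.CO

open Pool.Agent.P157D
open Pool.Agent.P157C (dz qq dbar Cut ExtP)
open Pool.Agent.P157C.V6 (ph den_ne ph_sub ph_lip ph_inj ph_ps ph_dat im_ph ph_tendsto gden_ne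
  gph_lip gph_ps gph_bd phd ph_hasDeriv phd_bd phd_lip im_phn)
open Pool.Agent.Y263.LF (Bez)

theorem keyM {K : ℕ} {J : Type} [Fintype J] {r r' κ L σ s c δ Q C r₁ : ℝ} {R : ℂ × ℂ → ℝ} {τ : ℂ}
    {W z : Fin K → ℂ × ℂ → ℂ}
    (h : LC r κ L 0 R W z)
    (hL : 1 ≤ L) (hκ : 0 < κ) (hκ1 : κ ≤ 1) (hκr : 16 * L * κ ≤ r') (S : D11_S_D11 r' κ L σ s c)
    (T : D11_T_D11 r r' L s c R τ)
    (hr₁ : 0 < r₁) (hr₁' : r₁ ≤ r') (hcs : 8 * (c * s) ≤ r₁)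
    (H : ∀ (R : ℂ × ℂ → ℝ) (W z : Fin K → ℂ × ℂ → ℂ), LC r' (κ / 2) (1024 * L ^ 2) σ R W z →
      ∀ (f : Fin K → ℂ → ℂ) (η : ℝ), 0 < η →
      (∀ k, DifferentiableOn ℂ (f k) {w : ℂ | -η < w.im}) →
      (∀ k, ∀ w : ℂ, 0 ≤ w.im → ‖f k w‖ ≤ 1) →
      (∀ k, ∃ c : ℂ, Tendsto (f k) (Bornology.cobounded ℂ ⊓ 𝓟 {w : ℂ | 0 ≤ w.im}) (𝓝 c)) →
      ∀ G : J → ℂ × ℂ → ℂ, (∀ j, DifferentiableOn ℂ (G j) {x | x ∈ Bo r' ∧ 0 < R x}) →
      (∀ j, ∀ x ∈ Bo r', 0 < R x → ‖G j x‖ ≤ 1) →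
      Bez (DB r' R W f Finset.univ δ) (SE W f G) Q →
      Bez {x | x ∈ Bo r₁ ∧ 0 < R x} (SE W f G) C)
    (f : Fin K → ℂ → ℂ) (hf : ∀ k, DifferentiableOn ℂ (f k) {w : ℂ | 0 < w.im})
    (hfb : ∀ k, ∀ w : ℂ, 0 < w.im → ‖f k w‖ ≤ 1)
    (G : J → ℂ × ℂ → ℂ) (hG : ∀ j, DifferentiableOn ℂ (G j) {x | x ∈ Bo r ∧ 0 < R x})
    (hGb : ∀ j, ∀ x ∈ Bo r, 0 < R x → ‖G j x‖ ≤ 1)
    (hlow : Bez (DB r R W f Finset.univ δ) (SE W f G) Q) :
    Bez {x | x ∈ Bo (r₁ / 4) ∧ L * c * s < R x} (SE W f G) C := by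
  have hs := S.s0
  have hs1 := S.s1
  have hs16 := S.s16
  have hr'0 := T.r'0
  have hr'r := T.r'r
  have hL0 : 0 < L := by linarith
  have hc0 : 0 < c := by
    rw [S.hc]
    positivity
  have hcan : ∀ (k : Fin K) {x : ℂ × ℂ}, x ∈ Bo r' →
      ph s (D11_ww_D11 (W k) s τ x) = W k (x.1 + τ, x.2) := by
    intro k x hx
    unfold D11_ww_D11
    refine gph_ps hs1 ?_
    have := D11_W_bd_D11 h hL k (T.mem S hx)
    exact S.u (by linarith)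
  have hrb : ∀ x ∈ Bo r', 0 < R x → 0 < R (x.1 + τ, x.2) := by
    intro x hx hp
    have h1 := T.up x hx
    have h2 : 0 < c * s / L := by positivity
    linarith
  have hmapG : DifferentiableOn ℂ (fun x : ℂ × ℂ => (x.1 + τ, x.2))
      {x | x ∈ Bo r' ∧ 0 < R x} := by fun_prop
  have hmd : Differentiable ℂ (fun x : ℂ × ℂ => (x.1 + τ, x.2)) := by fun_prop
  obtain ⟨g, hg, hgb, hid⟩ := H R (fun k => D11_ww_D11 (W k) s τ)
    (fun k => D11_zz_D11 (z k) s τ) (D11_lc_D11 h hL hκ hκ1 hκr S T)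
    (fun k w => f k (ph s w)) (s / 2) (by linarith)
    (fun k w hw => by
      have h1 := im_ph hs hs16 (w := w) hw
      have h2 : DifferentiableAt ℂ (f k) (ph s w) :=
        (hf k).differentiableAt
          ((isOpen_lt continuous_const Complex.continuous_im).mem_nhds h1.2)
      exact (DifferentiableAt.comp w h2 (ph_dat h1.1)).differentiableWithinAt)
    (fun k w hw => hfb k _ (im_ph hs hs16 (by linarith)).2)
    (fun k => by
      refine ⟨f k (Complex.I / s), ?_⟩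
      have h1 : 0 < (Complex.I / (s : ℂ)).im := by
        rw [Complex.div_ofReal_im, Complex.I_im]
        positivity
      have h2 : DifferentiableAt ℂ (f k) (Complex.I / s) :=
        (hf k).differentiableAt ((isOpen_lt continuous_const Complex.continuous_im).mem_nhds h1)
      exact (h2.continuousAt.tendsto.comp (ph_tendsto hs)).mono_left inf_le_left)
    (fun j x => G j (x.1 + τ, x.2))
    (fun j => (hG j).comp hmapG (fun x hx => ⟨T.mem S hx.1, hrb x hx.1 hx.2⟩))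
    (fun j x hx hp => hGb j _ (T.mem S hx) (hrb x hx hp))
    (by
      obtain ⟨u, hu1, hu2, hu3⟩ := hlow
      have hm : MapsTo (fun x : ℂ × ℂ => (x.1 + τ, x.2))
          (DB r' R (fun k => D11_ww_D11 (W k) s τ) (fun k w => f k (ph s w)) Finset.univ δ)
          (DB r R W f Finset.univ δ) := by
        rintro x ⟨h1, h2, h3⟩
        refine ⟨T.mem S h1, hrb x h1 h2, fun k hk => ?_⟩
        have h9 : ‖f k (ph s (D11_ww_D11 (W k) s τ x))‖ < δ := h3 k hk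
        rwa [hcan k h1] at h9
      refine ⟨fun q x => u q (x.1 + τ, x.2), fun q => (hu1 q).comp hmd.differentiableOn hm,
        fun q x hx => hu2 q _ (hm hx), fun x hx => ?_⟩
      rw [← hu3 _ (hm hx)]
      refine Finset.sum_congr rfl fun q _ => ?_
      rcases q with k | j
      · simp only [SE, Sum.elim_inl]
        rw [hcan k hx.1]
      · rfl)
  have hmap : ∀ x ∈ {x : ℂ × ℂ | x ∈ Bo (r₁ / 4) ∧ L * c * s < R x},
      (x.1 - τ, x.2) ∈ {x : ℂ × ℂ | x ∈ Bo r₁ ∧ 0 < R x} := by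
    rintro x ⟨⟨h1, h2⟩, h3⟩
    have hn := T.n
    have h4 : (x.1 - τ, x.2) ∈ Bo r₁ := by
      refine ⟨?_, ?_⟩
      · show ‖x.1 - τ‖ < r₁
        refine (norm_sub_le _ _).trans_lt ?_
        linarith
      · show ‖x.2‖ < r₁
        linarith
    refine ⟨h4, ?_⟩
    have h5 : (x.1 - τ, x.2) ∈ Bo r := ⟨by linarith [h4.1], by linarith [h4.2]⟩
    have h6 : x ∈ Bo r := ⟨by linarith, by linarith⟩
    have h7 := D11_R_le_D11 h.cr h6 h5
    have h8 : x - ((x.1 - τ, x.2) : ℂ × ℂ) = (τ, 0) := by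
      ext <;> simp
    rw [h8] at h7
    have h9 : ‖((τ, 0) : ℂ × ℂ)‖ ≤ c * s := by
      rw [Prod.norm_def]
      refine max_le hn ?_
      simp only [norm_zero]
      positivity
    have h10 : L * ‖((τ, 0) : ℂ × ℂ)‖ ≤ L * (c * s) := mul_le_mul_of_nonneg_left h9 hL0.le
    show 0 < R (x.1 - τ, x.2)
    linarith
  have hmap2 : DifferentiableOn ℂ (fun x : ℂ × ℂ => (x.1 - τ, x.2))
      {x : ℂ × ℂ | x ∈ Bo (r₁ / 4) ∧ L * c * s < R x} := by fun_prop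
  refine ⟨fun k x => g k (x.1 - τ, x.2), fun k => (hg k).comp hmap2 hmap,
    fun k x hx => hgb k _ (hmap x hx), ?_⟩
  intro x hx
  have h1 := hmap x hx
  have h2 := hid _ h1
  have h3 : (x.1 - τ, x.2) ∈ Bo r' := ⟨h1.1.1.trans_le hr₁', h1.1.2.trans_le hr₁'⟩
  have h4 : ∀ k, ph s (D11_ww_D11 (W k) s τ (x.1 - τ, x.2)) = W k x := by
    intro k
    rw [hcan k h3]
    simp only [sub_add_cancel]
  rw [← h2]
  refine Finset.sum_congr rfl fun q _ => ?_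
  rcases q with k | j
  · simp only [SE, Sum.elim_inl]
    rw [h4]
  · simp only [SE, Sum.elim_inr, sub_add_cancel]

theorem locVM (K : ℕ) (J : Type) [Fintype J] {r κ L δ Q : ℝ} (hr : 0 < r) (hκ : 0 < κ) (hκ1 : κ ≤ 1)
    (hL : 1 ≤ L) (hδ : 0 < δ) (hδ1 : δ ≤ 1) (hQ : 0 ≤ Q) :
    ∃ C r₁ : ℝ, 0 < r₁ ∧ r₁ ≤ r ∧
    ∀ (R : ℂ × ℂ → ℝ) (W z : Fin K → ℂ × ℂ → ℂ), LC r κ L 0 R W z → ∀ f : Fin K → ℂ → ℂ,
      (∀ k, DifferentiableOn ℂ (f k) {w : ℂ | 0 < w.im}) →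
      (∀ k, ∀ w : ℂ, 0 < w.im → ‖f k w‖ ≤ 1) →
      ∀ G : J → ℂ × ℂ → ℂ, (∀ j, DifferentiableOn ℂ (G j) {x | x ∈ Bo r ∧ 0 < R x}) →
      (∀ j, ∀ x ∈ Bo r, 0 < R x → ‖G j x‖ ≤ 1) →
      Bez (DB r R W f Finset.univ δ) (SE W f G) Q →
      Bez {x | x ∈ Bo r₁ ∧ 0 < R x} (SE W f G) C := by
  have hL0 : 0 < L := by linarith
  have hL2 : 1 ≤ L ^ 2 := one_le_pow₀ hL
  obtain ⟨r', hr'def⟩ : ∃ r' : ℝ, r' = r / (2 * L ^ 2) := ⟨_, rfl⟩
  have hr' : 0 < r' := by rw [hr'def]; positivity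
  have hr'r : 2 * r' ≤ r := by
    have e1 : 2 * L ^ 2 * r' = r := by
      rw [hr'def]
      field_simp
    nlinarith
  obtain ⟨κ₀, hκ₀def⟩ : ∃ κ₀ : ℝ, κ₀ = min κ (r' / (16 * L)) := ⟨_, rfl⟩
  have hκ₀ : 0 < κ₀ := by
    rw [hκ₀def]
    exact lt_min hκ (by positivity)
  have hκ₀1 : κ₀ ≤ κ := by rw [hκ₀def]; exact min_le_left _ _
  have hκ₀2 : 16 * L * κ₀ ≤ r' := by
    have h1 : κ₀ ≤ r' / (16 * L) := by rw [hκ₀def]; exact min_le_right _ _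
    rw [le_div_iff₀ (by positivity)] at h1
    linarith
  obtain ⟨C, r₁, σ₀, hr₁, hr₁', hσ₀, H⟩ := locUM K J (r := r') (κ := κ₀ / 2) (L := 1024 * L ^ 2)
    (δ := δ) hr' (by linarith) (by linarith) (by nlinarith) hδ hδ1 hQ
  refine ⟨C, r₁ / 4, by linarith, by linarith, ?_⟩
  intro R W z h0 f hf hfb G hG hGb hlow
  have h : LC r κ₀ L 0 R W z := D11_LC_mono_D11 h0 hκ₀ hκ₀1
  obtain ⟨c, hcdef⟩ : ∃ c : ℝ, c = 5 * L ^ 4 := ⟨_, rfl⟩
  have hc : 0 < c := by rw [hcdef]; positivity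
  obtain ⟨T, hT⟩ : ∃ T : ℝ, T = 16 / κ₀ + 2 * c + 64 * L + 16 * c / r' + (L * c + 4) / σ₀ +
    L * c + 8 * c / r₁ := ⟨_, rfl⟩
  have t1 : 0 < 16 / κ₀ := by positivity
  have t2 : 0 < 64 * L := by positivity
  have t3 : 0 < 16 * c / r' := by positivity
  have t4 : 0 < (L * c + 4) / σ₀ := by positivity
  have t5 : 0 < L * c := by positivity
  have t6 : 0 < 8 * c / r₁ := by positivity
  have hTpos : 0 < T := by rw [hT]; positivity
  obtain ⟨s₀, hs₀def⟩ : ∃ s₀ : ℝ, s₀ = 1 / T := ⟨_, rfl⟩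
  have hs₀ : 0 < s₀ := by rw [hs₀def]; positivity
  have hSm : ∀ s : ℝ, 0 < s → s ≤ s₀ → D11_S_D11 r' κ₀ L σ₀ s c ∧ 8 * (c * s) ≤ r₁ := by
    intro s hs hss
    have hsT : s * T ≤ 1 := by
      rw [hs₀def, le_div_iff₀ hTpos] at hss
      exact hss
    have hle : ∀ a : ℝ, a ≤ T → s * a ≤ 1 := fun a ha =>
      (mul_le_mul_of_nonneg_left ha hs.le).trans hsT
    have u1 := hle (16 / κ₀) (by rw [hT]; linarith)
    have u3 := hle (64 * L) (by rw [hT]; linarith)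
    have u4 := hle (16 * c / r') (by rw [hT]; linarith)
    have u5 := hle ((L * c + 4) / σ₀) (by rw [hT]; linarith)
    have u6 := hle (L * c) (by rw [hT]; linarith)
    have u7 := hle (8 * c / r₁) (by rw [hT]; linarith)
    rw [mul_div_assoc', div_le_iff₀ hκ₀] at u1
    rw [mul_div_assoc', div_le_iff₀ hr'] at u4
    rw [mul_div_assoc', div_le_iff₀ hσ₀] at u5
    rw [mul_div_assoc', div_le_iff₀ hr₁] at u7
    have hs16 : s ≤ 1 / 16 := by linarith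
    exact ⟨⟨hs, by linarith, by rwa [abs_of_pos hs], hs16, hcdef, by linarith, by linarith,
      by linarith, by linarith⟩, by linarith⟩
  have key : ∀ s : ℝ, 0 < s → s ≤ s₀ →
      Bez {x | x ∈ Bo (r₁ / 4) ∧ L * c * s < R x} (SE W f G) C := by
    intro s hs hss
    obtain ⟨S, h8⟩ := hSm s hs hss
    obtain ⟨τ, hτ⟩ := D11_exT_D11 h.cr hr'def hs hc S.cs
    exact keyM h hL hκ₀ (by linarith) hκ₀2 S hτ hr₁ hr₁' h8 H f hf hfb G hG hGb hlow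
  have hsm : ∀ m : ℕ, 0 < s₀ / ((m : ℝ) + 1) := fun m => by positivity
  have hsm1 : ∀ m : ℕ, s₀ / ((m : ℝ) + 1) ≤ s₀ := fun m => by
    rw [div_le_iff₀ (by positivity)]
    have : (0 : ℝ) ≤ m := Nat.cast_nonneg m
    nlinarith
  have hanti : ∀ m m' : ℕ, m ≤ m' → s₀ / ((m' : ℝ) + 1) ≤ s₀ / ((m : ℝ) + 1) := by
    intro m m' hm
    have : (m : ℝ) ≤ m' := by exact_mod_cast hm
    exact div_le_div_of_nonneg_left hs₀.le (by positivity) (by linarith)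
  have hex := Pool.Agent.H788R3.Cor3.exhaust3 (C := C)
    (fun m : ℕ => {x : ℂ × ℂ | x ∈ Bo (r₁ / 4) ∧ L * c * (s₀ / ((m : ℝ) + 1)) < R x})
    (fun m => D11_isOpen_R_D11 h.cr (by linarith))
    (fun m m' hm x hx => ⟨hx.1, lt_of_le_of_lt
      (mul_le_mul_of_nonneg_left (hanti m m' hm) t5.le) hx.2⟩)
    (SE W f G) (fun m => key _ (hsm m) (hsm1 m))
  have hU : (⋃ m : ℕ, {x : ℂ × ℂ | x ∈ Bo (r₁ / 4) ∧ L * c * (s₀ / ((m : ℝ) + 1)) < R x}) =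
      {x : ℂ × ℂ | x ∈ Bo (r₁ / 4) ∧ 0 < R x} := by
    ext x
    simp only [mem_iUnion]
    constructor
    · rintro ⟨m, hx⟩
      refine ⟨hx.1, lt_trans ?_ hx.2⟩
      have := hsm m
      positivity
    · intro hx
      have h0 : 0 < R x := hx.2
      obtain ⟨m, hm⟩ := exists_nat_gt (L * c * s₀ / R x)
      refine ⟨m, hx.1, ?_⟩
      rw [div_lt_iff₀ h0] at hm
      rw [mul_div_assoc', div_lt_iff₀ (by positivity)]
      nlinarith
  rw [hU] at hex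
  exact hex

end Pool.Agent.Helper60.CO
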