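import Mathlib
import Pool.Graph.R_pool_sql_team_seeded_620a6dc7.P157G.LocLm
import Pool.Agent.Helper60.CO.MR

/-!
Strictly pseudoconvex boundary points (after `Pool.Agent.P157G.locL`).
-/

set_option autoImplicit false

open MeasureTheory Metric Set Filter Topology Complex

namespace Pool.Agent.Helper60.CO

open Pool.Agent.P157G
open Pool.Agent.P157D (d1 d2 CR Bo)
open Pool.Agent.Y263.LF (Bez)

theorem locLM (K : ℕ) (J : Type) [Fintype J] {δ Q ρ₀ : ℝ} (hδ : 0 < δ) (hδ1 : δ ≤ 1) (hQ : 0 ≤ Q)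
    (hρ₀ : 0 < ρ₀) {ρ : ℂ × ℂ → ℝ}
    (h : NF ρ) {p : ℂ × ℂ} (hp : ρ p = 0) {ψ : Fin K → ℂ × ℂ → ℂ} (hψ : ∀ k, AnalyticAt ℂ (ψ k) p)
    (hψ1 : ∀ k, ∀ x ∈ {x | ρ x < 0} ∩ ball p ρ₀, ‖ψ k x‖ < 1) (hψp : ∀ k, ‖ψ k p‖ = 1) :
    ∃ C r : ℝ, 0 < r ∧ r ≤ ρ₀ ∧
      ∀ f : Fin K → ℂ → ℂ, (∀ k, DifferentiableOn ℂ (f k) (ball 0 1)) →
      (∀ k, ∀ w ∈ ball (0 : ℂ) 1, ‖f k w‖ ≤ 1) →
      ∀ G : J → ℂ × ℂ → ℂ, (∀ j, HBd ({x | ρ x < 0} ∩ ball p ρ₀) 1 (G j)) →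
      Bez {x | x ∈ {x | ρ x < 0} ∩ ball p ρ₀ ∧ ∀ k, ‖f k (ψ k x)‖ < δ} (SE ψ f G) Q →
      Bez ({x | ρ x < 0} ∩ ball p r) (SE ψ f G) C := by
  have hev : ∀ᶠ y in 𝓝 p, ∀ k, AnalyticAt ℂ (ψ k) y := by
    rw [eventually_all]
    intro k
    exact (hψ k).eventually_analyticAt
  obtain ⟨O, hOs, hOo, hpO⟩ := _root_.mem_nhds_iff.1 (inter_mem hev (ball_mem_nhds p hρ₀))
  obtain ⟨Θ, T, U, r, L, κ, lam, A, ε, B, hr, hr1, hL, hκ, hκr, hlam, hA, hε, hB, hUo, hpU, hUO,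
    hΘp, hT0, hΘd, hTd, hTU, hΘT, hTΘ, hTB, hCR⟩ :=
    nara h.smooth hp (h.nd p hp) (h.levi p hp) hOo hpO
  have hcls : Cls ε ρ ρ := by
    refine ⟨h.smooth, fun x => ⟨?_, ?_, ?_⟩⟩
    · rw [sub_self, abs_zero]
      exact hε.le
    · rw [sub_self, norm_zero]
      exact hε.le
    · refine ContinuousLinearMap.opNorm_le_bound _ hε.le fun v => ?_
      change ‖fderiv ℝ (fderiv ℝ ρ) x v - fderiv ℝ (fderiv ℝ ρ) x v‖ ≤ ε * ‖v‖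
      rw [sub_self, norm_zero]
      exact mul_nonneg hε.le (norm_nonneg _)
  set R : ℂ × ℂ → ℝ := fun x => A * (1 - Real.exp (lam * ρ (T x))) with hRdef
  have hR : CR r L R := (hCR ρ hcls).1
  have hR0 : R (0, 0) = 0 := by
    change A * (1 - Real.exp (lam * ρ (T (0, 0)))) = 0
    rw [hT0, hp, mul_zero, Real.exp_zero, sub_self, mul_zero]
  have hRpos : ∀ x, 0 < R x ↔ ρ (T x) < 0 := by
    intro x
    change 0 < A * (1 - Real.exp (lam * ρ (T x))) ↔ ρ (T x) < 0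
    rw [mul_pos_iff_of_pos_left hA, sub_pos, Real.exp_lt_one_iff]
    constructor
    · intro h1
      by_contra h2
      have : 0 ≤ lam * ρ (T x) := mul_nonneg hlam.le (not_lt.1 h2)
      linarith
    · intro h1
      exact mul_neg_of_pos_of_neg hlam h1
  have hTO : ∀ x ∈ Bo r, (∀ k, AnalyticAt ℂ (ψ k) (T x)) ∧ T x ∈ ball p ρ₀ := fun x hx =>
    hOs (hUO (hTU hx))
  have hBo : IsOpen (Bo r) := G17_isOpen_Bo r
  have hψd : ∀ k, DifferentiableOn ℂ (fun x => ψ k (T x)) (Bo r) := by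
    intro k x hx
    have h1 : DifferentiableAt ℂ T x := hTd.differentiableAt (hBo.mem_nhds hx)
    have h2 : DifferentiableAt ℂ (ψ k) (T x) := ((hTO x hx).1 k).differentiableAt
    exact (DifferentiableAt.comp x h2 h1).differentiableWithinAt
  have hhopf : ∀ k, ∃ c : ℝ, 0 < c ∧ ∀ᶠ x in 𝓝 ((0 : ℂ), (0 : ℂ)), 0 < R x →
      c * R x ≤ 1 - ‖ψ k (T x)‖ ^ 2 := fun k =>
    hopf_loc (ψ := fun x => ψ k (T x)) hR hR0 ((hψd k).mono fun x hx => hx.1)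
      fun x hx hRx => hψ1 k _ ⟨(hRpos x).1 hRx, (hTO x hx).2⟩
  choose ck hck0 hck using hhopf
  obtain ⟨c, hc, hcle⟩ : ∃ c : ℝ, 0 < c ∧ ∀ k, c ≤ ck k := by
    rcases isEmpty_or_nonempty (Fin K) with hK | hK
    · exact ⟨1, one_pos, fun k => (hK.false k).elim⟩
    · obtain ⟨k0, hk0⟩ := Finite.exists_min ck
      exact ⟨ck k0, hck0 k0, hk0⟩
  have h0B : ball ((0 : ℂ), (0 : ℂ)) r ⊆ Bo r := by
    intro x hx
    have h1 : ‖x‖ < r := by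
      have : dist x ((0 : ℂ), (0 : ℂ)) < r := hx
      rwa [show ((0 : ℂ), (0 : ℂ)) = (0 : ℂ × ℂ) from rfl, dist_zero_right] at this
    exact ⟨(norm_fst_le x).trans_lt h1, (norm_snd_le x).trans_lt h1⟩
  have hTa : AnalyticAt ℂ T ((0 : ℂ), (0 : ℂ)) := G17_analytic hr (hTd.mono h0B)
  have hψa : ∀ k, AnalyticAt ℂ (fun x => ψ k (T x)) ((0 : ℂ), (0 : ℂ)) := by
    intro k
    have h1 : AnalyticAt ℂ (ψ k) (T ((0 : ℂ), (0 : ℂ))) := by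
      rw [hT0]
      exact hψ k
    exact AnalyticAt.fun_comp (g := ψ k) (f := T) h1 hTa
  obtain ⟨C, ρ₁, hρ₁, hρ₁r, hmain⟩ := locRM K J hδ hδ1 hQ hr hc hR hR0 hψa
    (fun k => by
      filter_upwards [hck k] with x hx hRx
      refine le_trans ?_ (hx hRx)
      exact mul_le_mul_of_nonneg_right (hcle k) hRx.le)
    (fun k => by
      change ‖ψ k (T (0, 0))‖ = 1
      rw [hT0]
      exact hψp k)
  have hΘc : ContinuousAt Θ p := (hΘd.continuousOn).continuousAt (hUo.mem_nhds hpU)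
  have hnb : U ∩ Θ ⁻¹' (Bo ρ₁) ∈ 𝓝 p := by
    refine inter_mem (hUo.mem_nhds hpU) (hΘc ?_)
    rw [hΘp]
    exact (G17_isOpen_Bo ρ₁).mem_nhds ⟨by simpa using hρ₁, by simpa using hρ₁⟩
  obtain ⟨r₁, hr₁, hr₁s⟩ := Metric.mem_nhds_iff.1 hnb
  have hBρ : ∀ x ∈ Bo ρ₁, x ∈ Bo r := fun x hx =>
    ⟨lt_of_lt_of_le hx.1 hρ₁r, lt_of_lt_of_le hx.2 hρ₁r⟩
  have hmem : ∀ z ∈ {x | ρ x < 0} ∩ ball p (min r₁ ρ₀),
      z ∈ U ∧ Θ z ∈ Bo ρ₁ ∧ T (Θ z) = z ∧ 0 < R (Θ z) := by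
    rintro z ⟨hz1, hz2⟩
    have h1 : z ∈ U ∩ Θ ⁻¹' (Bo ρ₁) := hr₁s (ball_subset_ball (min_le_left _ _) hz2)
    have h2 : T (Θ z) = z := hTΘ z h1.1 (hBρ _ h1.2)
    refine ⟨h1.1, h1.2, h2, ?_⟩
    rw [hRpos, h2]
    exact hz1
  refine ⟨C, min r₁ ρ₀, lt_min hr₁ hρ₀, min_le_right _ _, fun f hf hfb G hG hGδ => ?_⟩
  have hTm : MapsTo T {x | x ∈ Bo r ∧ 0 < R x} ({x | ρ x < 0} ∩ ball p ρ₀) := fun x hx =>
    ⟨(hRpos x).1 hx.2, (hTO x hx.1).2⟩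
  obtain ⟨g, hg, hgb, heq⟩ := hmain f hf hfb (fun j x => G j (T x))
    (fun j => (hG j).1.comp (hTd.mono fun x hx => hx.1) hTm)
    (fun j x hx hRx => (hG j).2 _ (hTm ⟨hx, hRx⟩))
    (by
      obtain ⟨u, hu1, hu2, hu3⟩ := hGδ
      have hm : MapsTo T (Pool.Agent.P157D.DB r R (fun k x => ψ k (T x)) f Finset.univ δ)
          {x | x ∈ {x | ρ x < 0} ∩ ball p ρ₀ ∧ ∀ k, ‖f k (ψ k x)‖ < δ} := by
        rintro x ⟨h1, h2, h3⟩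
        exact ⟨hTm ⟨h1, h2⟩, fun k => h3 k (Finset.mem_univ k)⟩
      refine ⟨fun q x => u q (T x), fun q => (hu1 q).comp (hTd.mono fun x hx => hx.1) hm,
        fun q x hx => hu2 q _ (hm hx), fun x hx => ?_⟩
      rw [← hu3 _ (hm hx)]
      refine Finset.sum_congr rfl fun q _ => ?_
      rcases q with k | j <;> rfl)
  have hΘm : MapsTo Θ ({x | ρ x < 0} ∩ ball p (min r₁ ρ₀)) {x | x ∈ Bo ρ₁ ∧ 0 < R x} := fun z hz =>
    ⟨(hmem z hz).2.1, (hmem z hz).2.2.2⟩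
  have hΘd' : DifferentiableOn ℂ Θ ({x | ρ x < 0} ∩ ball p (min r₁ ρ₀)) :=
    hΘd.mono fun z hz => (hmem z hz).1
  refine ⟨fun k z => g k (Θ z), fun k => (hg k).comp hΘd' hΘm, fun k z hz => hgb k _ (hΘm hz),
    fun z hz => ?_⟩
  rw [← heq _ (hΘm hz)]
  refine Finset.sum_congr rfl fun q _ => ?_
  rcases q with k | j
  · simp only [SE, Sum.elim_inl, (hmem z hz).2.2.1]
  · simp only [SE, Sum.elim_inr, (hmem z hz).2.2.1]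

end Pool.Agent.Helper60.CO
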