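import Mathlib
import Pool.Graph.R_pool_sql_team_seeded_620a6dc7.P157G.TupL
import Pool.Agent.Helper60.CO.ML

/-!
The localisation for localising functions with `|ψ k| < 1` on `D` near a boundary point
(after `Pool.Agent.P157G.tupL`).
-/

set_option autoImplicit false

open MeasureTheory Metric Set Filter Topology Complex

namespace Pool.Agent.Helper60.CO

open Pool.Agent.P157G
open Pool.Agent.P157D (d1 d2 CR Bo)
open Pool.Agent.Y263.LF (Bez)

/-- the case of a coordinate which does not vanish at the interior point -/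
theorem bez_one {D : Set (ℂ × ℂ)} {J : Type} [Fintype J] {S : J → ℂ × ℂ → ℂ} {δ' : ℝ}
    (hδ' : 0 < δ') (k : J) (hd : DifferentiableOn ℂ (S k) D) (hlo : ∀ x ∈ D, δ' ≤ ‖S k x‖) :
    Bez D S (1 / δ') := by
  classical
  have hne : ∀ x ∈ D, S k x ≠ 0 := by
    intro x hx h0
    have := hlo x hx
    rw [h0, norm_zero] at this
    linarith
  refine ⟨fun j x => if j = k then (S k x)⁻¹ else 0, fun j => ?_, fun j x hx => ?_, fun x hx => ?_⟩
  · by_cases hj : j = k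
    · simp only [hj, if_true]
      exact hd.inv hne
    · simp only [hj, if_false]
      exact differentiableOn_const _
  · by_cases hj : j = k
    · simp only [hj, if_true]
      rw [norm_inv, one_div]
      exact inv_anti₀ hδ' (hlo x hx)
    · simp only [hj, if_false, norm_zero]
      positivity
  · rw [Finset.sum_eq_single k]
    · simp only [if_true]
      exact mul_inv_cancel₀ (hne x hx)
    · intro j _ hj
      simp [hj]
    · intro hk
      exact absurd (Finset.mem_univ k) hk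

/-- functions which occur twice -/
theorem bez_ext {D : Set (ℂ × ℂ)} {K n : ℕ} {J : Type} [Fintype J] {ψ : Fin K → ℂ × ℂ → ℂ}
    {f : Fin K → ℂ → ℂ} (e : Fin n → Fin K) (G : J → ℂ × ℂ → ℂ) {C : ℝ}
    (hs : Bez D (SE (fun i => ψ (e i)) (fun i => f (e i)) (SE ψ f G)) C) :
    Bez D (SE ψ f G) (C + n * |C|) := by
  classical
  obtain ⟨g, hg, hgb, hsum⟩ := hs
  refine ⟨fun q x => g (Sum.inr q) x + ∑ i : Fin n, if q = Sum.inl (e i) then g (Sum.inl i) x else 0,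
    fun q => ?_, fun q x hx => ?_, fun x hx => ?_⟩
  · refine (hg _).add (DifferentiableOn.fun_sum fun i _ => ?_)
    by_cases hi : q = Sum.inl (e i)
    · simp only [hi, if_true]
      exact hg _
    · simp only [hi, if_false]
      exact differentiableOn_const _
  · refine (norm_add_le _ _).trans (add_le_add (hgb _ x hx) ((norm_sum_le _ _).trans ?_))
    refine le_trans (Finset.sum_le_sum (g := fun _ => |C|) (fun i _ => ?_)) ?_
    · by_cases hi : q = Sum.inl (e i)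
      · simp only [hi, if_true]
        exact (hgb _ x hx).trans (le_abs_self C)
      · simp only [hi, if_false, norm_zero]
        exact abs_nonneg C
    · rw [Finset.sum_const, Finset.card_univ, Fintype.card_fin, nsmul_eq_mul]
  · rw [← hsum x hx, Fintype.sum_sum_type (fun q : Fin n ⊕ (Fin K ⊕ J) => _)]
    simp_rw [mul_add]
    rw [Finset.sum_add_distrib, add_comm]
    congr 1
    simp_rw [Finset.mul_sum]
    rw [Finset.sum_comm]
    refine Finset.sum_congr rfl (fun i _ => ?_)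
    rw [Finset.sum_eq_single (Sum.inl (e i))]
    · simp [SE]
    · intro q _ hq
      simp [hq]
    · intro hk
      exact absurd (Finset.mem_univ _) hk

theorem tupM (K : ℕ) (J : Type) [Fintype J] {δ Q ρ₀ : ℝ} (hδ : 0 < δ) (hδ1 : δ ≤ 1) (hQ : 0 ≤ Q)
    (hρ₀ : 0 < ρ₀) {ρ : ℂ × ℂ → ℝ} (h : NF ρ) {p : ℂ × ℂ} (hp : ρ p = 0) {ψ : Fin K → ℂ × ℂ → ℂ}
    (hψ : ∀ k, AnalyticAt ℂ (ψ k) p) (hψ1 : ∀ k, ∀ᶠ x in 𝓝 p, ρ x < 0 → ‖ψ k x‖ < 1)
    {f : Fin K → ℂ → ℂ} (hf : ∀ k, DifferentiableOn ℂ (f k) (ball 0 1))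
    (hf1 : ∀ k, ∀ w ∈ ball (0 : ℂ) 1, ‖f k w‖ ≤ 1)
    {G : J → ℂ × ℂ → ℂ} (hG : ∀ j, HBd ({x | ρ x < 0} ∩ ball p ρ₀) 1 (G j))
    (hB : Bez {x | x ∈ {x | ρ x < 0} ∩ ball p ρ₀ ∧ ∀ k, ‖f k (ψ k x)‖ < δ} (SE ψ f G) Q) :
    ∃ C r : ℝ, 0 < r ∧ r ≤ ρ₀ ∧ Bez ({x | ρ x < 0} ∩ ball p r) (SE ψ f G) C := by
  classical
  have hdf : ∀ k, ∀ x, ρ x < 0 → AnalyticAt ℂ (ψ k) x → ‖ψ k x‖ < 1 →
      DifferentiableAt ℂ (fun x => f k (ψ k x)) x := by
    intro k x _ hx1 hx2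
    have h1 : DifferentiableAt ℂ (f k) (ψ k x) :=
      (hf k).differentiableAt (isOpen_ball.mem_nhds (by rw [mem_ball_zero_iff]; exact hx2))
    exact h1.comp x hx1.differentiableAt
  have hcont : ∀ k, ‖ψ k p‖ < 1 → ContinuousAt (fun x => f k (ψ k x)) p := by
    intro k hk
    have h1 : ContinuousAt (f k) (ψ k p) :=
      ((hf k).differentiableAt (isOpen_ball.mem_nhds (by rw [mem_ball_zero_iff]; exact hk))).continuousAt
    exact ContinuousAt.comp (g := f k) h1 (hψ k).continuousAt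
  have hev0 : ∀ᶠ x in 𝓝 p, (∀ k, AnalyticAt ℂ (ψ k) x) ∧ (∀ k, ρ x < 0 → ‖ψ k x‖ < 1) :=
    (eventually_all.2 (fun k => (hψ k).eventually_analyticAt)).and (eventually_all.2 hψ1)
  by_cases hcase : ∃ k, ‖ψ k p‖ < 1 ∧ f k (ψ k p) ≠ 0
  · obtain ⟨k, hk, hk2⟩ := hcase
    have hpos : 0 < ‖f k (ψ k p)‖ := norm_pos_iff.2 hk2
    have h1 : ∀ᶠ x in 𝓝 p, ‖f k (ψ k p)‖ / 2 < ‖f k (ψ k x)‖ :=
      (hcont k hk).norm.eventually (lt_mem_nhds (by linarith))
    obtain ⟨ε, hε0, hε⟩ := Metric.eventually_nhds_iff_ball.1 (h1.and hev0)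
    refine ⟨_, min ε ρ₀, lt_min hε0 hρ₀, min_le_right _ _, bez_one
      (δ' := ‖f k (ψ k p)‖ / 2) (by positivity) (Sum.inl k) ?_ ?_⟩
    · intro x hx
      have h2 := hε x (ball_subset_ball (min_le_left _ _) hx.2)
      exact (hdf k x hx.1 (h2.2.1 k) (h2.2.2 k hx.1)).differentiableWithinAt
    · intro x hx
      exact (hε x (ball_subset_ball (min_le_left _ _) hx.2)).1.le
  push Not at hcase
  have hev : ∀ᶠ x in 𝓝 p, ((∀ k, AnalyticAt ℂ (ψ k) x) ∧ (∀ k, ρ x < 0 → ‖ψ k x‖ < 1)) ∧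
      ∀ k, ‖ψ k p‖ < 1 → ‖f k (ψ k x)‖ < δ := by
    refine hev0.and (eventually_all.2 fun k => ?_)
    by_cases hk : ‖ψ k p‖ < 1
    · have h1 := (hcont k hk).norm
      have h2 : ‖f k (ψ k p)‖ < δ := by rw [hcase k hk, norm_zero]; exact hδ
      filter_upwards [h1.eventually (gt_mem_nhds h2)] with x hx _
      exact hx
    · exact Eventually.of_forall (fun x hx => absurd hx hk)
  obtain ⟨ε, hε0, hε⟩ := Metric.eventually_nhds_iff_ball.1 hev
  obtain ⟨ρ₂, hρ₂⟩ : ∃ ρ₂ : ℝ, ρ₂ = min ε ρ₀ := ⟨_, rfl⟩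
  have hρ₂0 : 0 < ρ₂ := by rw [hρ₂]; exact lt_min hε0 hρ₀
  have hρ₂ε : ρ₂ ≤ ε := by rw [hρ₂]; exact min_le_left _ _
  have hρ₂ρ : ρ₂ ≤ ρ₀ := by rw [hρ₂]; exact min_le_right _ _
  -- the indices with values on the circle
  obtain ⟨T, hT⟩ : ∃ T : Finset (Fin K), T = Finset.univ.filter (fun k => ‖ψ k p‖ = 1) :=
    ⟨_, rfl⟩
  have hmT : ∀ k, k ∈ T ↔ ‖ψ k p‖ = 1 := by
    intro k
    rw [hT]
    simp
  have hnT : ∀ k, k ∉ T → ‖ψ k p‖ < 1 := by
    intro k hk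
    rw [hmT] at hk
    exact lt_of_le_of_ne (L2_le h hp (hψ k).continuousAt (hψ1 k)) hk
  obtain ⟨e, he⟩ : ∃ e : Fin T.card → Fin K, ∀ k, k ∈ T ↔ ∃ i, e i = k := by
    refine ⟨fun i => (T.orderIsoOfFin rfl i : Fin K), fun k => ⟨fun hk => ?_, ?_⟩⟩
    · refine ⟨(T.orderIsoOfFin rfl).symm ⟨k, hk⟩, ?_⟩
      simp
    · rintro ⟨i, rfl⟩
      exact (T.orderIsoOfFin rfl i).2
  obtain ⟨C, r, hr0, hrρ, hloc⟩ := locLM T.card (Fin K ⊕ J) hδ hδ1 hQ hρ₂0 h hp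
    (ψ := fun i => ψ (e i))
    (fun i => hψ (e i)) (fun i x hx => (hε x (ball_subset_ball hρ₂ε hx.2)).1.2 (e i) hx.1)
    (fun i => (hmT (e i)).1 ((he (e i)).2 ⟨i, rfl⟩))
  refine ⟨_, r, hr0, hrρ.trans hρ₂ρ, bez_ext e G (hloc (fun i => f (e i)) (fun i => hf (e i))
    (fun i => hf1 (e i)) (SE ψ f G) ?_ ?_)⟩
  · rintro (k | j)
    · refine ⟨fun x hx => ?_, fun x hx => ?_⟩
      · have h2 := (hε x (ball_subset_ball hρ₂ε hx.2)).1
        exact (hdf k x hx.1 (h2.1 k) (h2.2 k hx.1)).differentiableWithinAt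
      · have h2 := (hε x (ball_subset_ball hρ₂ε hx.2)).1
        exact hf1 k _ (by rw [mem_ball_zero_iff]; exact h2.2 k hx.1)
    · exact L2_restr (hG j) (inter_subset_inter_right _ (ball_subset_ball hρ₂ρ))
  · obtain ⟨u, hu1, hu2, hu3⟩ := hB
    have hsub : {x | x ∈ {x | ρ x < 0} ∩ ball p ρ₂ ∧ ∀ i, ‖f (e i) (ψ (e i) x)‖ < δ} ⊆
        {x | x ∈ {x | ρ x < 0} ∩ ball p ρ₀ ∧ ∀ k, ‖f k (ψ k x)‖ < δ} := by
      rintro x ⟨hx1, hx2⟩
      refine ⟨⟨hx1.1, ball_subset_ball hρ₂ρ hx1.2⟩, fun k => ?_⟩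
      by_cases hk : k ∈ T
      · obtain ⟨i, hi⟩ := (he k).1 hk
        rw [← hi]
        exact hx2 i
      · exact (hε x (ball_subset_ball hρ₂ε hx1.2)).2 k (hnT k hk)
    refine ⟨Sum.elim (fun _ _ => 0) u, ?_, ?_, ?_⟩
    · rintro (i | q)
      · exact differentiableOn_const _
      · exact (hu1 q).mono hsub
    · rintro (i | q) x hx
      · simpa using hQ
      · exact hu2 q x (hsub hx)
    · intro x hx
      rw [← hu3 x (hsub hx), Fintype.sum_sum_type]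
      simp [SE]

end Pool.Agent.Helper60.CO
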