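import Mathlib
import Pool.Graph.R_pool_sql_team_seeded_620a6dc7.P157G.FamL
import Pool.Agent.Helper60.CO.MT
import Pool.Agent.Helper60.CO.Loc

/-!
Solutions on cells give global solutions.
-/

set_option autoImplicit false

open MeasureTheory Metric Set Filter Topology Complex

namespace Pool.Agent.Helper60.CO

open Pool.Agent.P157G
open Pool.Agent.Y263.LF (Bez)

theorem loc_main2 {ρ : ℂ × ℂ → ℝ} (h : NF ρ) {N : ℕ} {F : Fin N → ℂ × ℂ → ℂ}
    (hF : ∀ j, ∃ M : ℝ, HBd {x | ρ x < 0} M (F j)) (h0 : ∀ x, ρ x < 0 → ∃ j, F j x ≠ 0)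
    (hloc : ∀ p ∈ frontier {x | ρ x < 0}, ∀ lam : (ℂ × ℂ → ℂ) → ℂ,
      ∃ T : Finset (ℂ × ℂ → ℂ), (∀ s ∈ T, s ∈ Gn {x | ρ x < 0} p) ∧ ∃ ε : ℝ, 0 < ε ∧
        ∃ Q : ℝ, Bez (Cl {x | ρ x < 0} p T lam ε) F Q) :
    ∃ (C : ℝ) (g : Fin N → ℂ × ℂ → ℂ), (∀ j, HBd {x | ρ x < 0} C (g j)) ∧
      ∀ x, ρ x < 0 → ∑ j, F j x * g j x = 1 := by
  classical
  -- a common bound
  choose M hM using hF
  obtain ⟨R, hR0, hR⟩ : ∃ R : ℝ, 0 < R ∧ ∀ j, HBd {x | ρ x < 0} R (F j) := by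
    refine ⟨∑ j, |M j| + 1, by positivity, fun j => ⟨(hM j).1, fun x hx => ?_⟩⟩
    have h1 : |M j| ≤ ∑ j, |M j| := Finset.single_le_sum (f := fun j => |M j|)
      (fun _ _ => abs_nonneg _) (Finset.mem_univ j)
    have h2 := (hM j).2 x hx
    have h3 := le_abs_self (M j)
    linarith
  have hRc : (R : ℂ) ≠ 0 := by exact_mod_cast hR0.ne'
  have hRn : ‖(R : ℂ)‖ = R := by rw [Complex.norm_real, Real.norm_of_nonneg hR0.le]
  obtain ⟨E, hE⟩ : ∃ E : Unit → Fin N → ℂ × ℂ → ℂ, ∀ i j x, E i j x = F j x / R :=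
    ⟨fun _ j x => F j x / R, fun _ _ _ => rfl⟩
  have hE' : ∀ i j, E i j = fun x => F j x / R := fun i j => funext (hE i j)
  have hEb : ∀ i j, HBd {x | ρ x < 0} 1 (E i j) := by
    intro i j
    refine ⟨?_, fun x hx => ?_⟩
    · rw [hE']
      exact dfdiv (hR j).1 _
    · rw [hE, norm_div, hRn, div_le_one hR0]
      exact (hR j).2 x hx
  by_contra hcon
  have hns : ¬ ∃ C : ℝ, ∀ i : Unit, ∃ g : Fin N → ℂ × ℂ → ℂ, (∀ j, HBd {x | ρ x < 0} C (g j)) ∧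
      ∀ x ∈ {x | ρ x < 0}, ∑ j, E i j x * g j x = 1 := by
    rintro ⟨C, hC⟩
    obtain ⟨g, hg, hgs⟩ := hC ()
    refine hcon ⟨C / R, fun j x => g j x / R, fun j => ⟨dfdiv (hg j).1 _, fun x hx => ?_⟩,
      fun x hx => ?_⟩
    · rw [norm_div, hRn]
      exact div_le_div_of_nonneg_right ((hg j).2 x hx) hR0.le
    · rw [← hgs x hx]
      refine Finset.sum_congr rfl fun j _ => ?_
      rw [hE]
      field_simp
  have hDo : IsOpen {x | ρ x < 0} := isOpen_lt h.smooth.continuous continuous_const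
  have hbd : Bornology.IsBounded {x | ρ x < 0} := h.bdd.subset fun x (hx : ρ x < 0) => hx.le
  have hcl : closure {x | ρ x < 0} ⊆ {x | ρ x ≤ 0} :=
    closure_minimal (fun x (hx : ρ x < 0) => hx.le) (isClosed_le h.smooth.continuous continuous_const)
  obtain ⟨C₀, hC₀, hS⟩ := slv_nf h
  let tJ : TopologicalSpace Unit := ⊥
  have dJ : DiscreteTopology Unit := ⟨rfl⟩
  obtain ⟨χ, hχ⟩ := zeroD hDo hEb hns
  obtain ⟨p, hp, hP⟩ := char_pt hDo hbd (fun p r hr => div_lem hDo hbd hC₀ hS p hr) χ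
  by_cases hpD : p ∈ {x | ρ x < 0}
  · obtain ⟨j, hj⟩ := h0 p hpD
    have hpos : 0 < ∑ j, ‖E () j p‖ := by
      refine Finset.sum_pos' (fun _ _ => norm_nonneg _) ⟨j, Finset.mem_univ _, ?_⟩
      rw [hE, norm_pos_iff]
      exact div_ne_zero hj hRc
    exact int_pt hDo hpD χ hP hEb hpos (fun _ => le_rfl) hχ
  have hpf : p ∈ frontier {x | ρ x < 0} := by
    rw [hDo.frontier_eq]
    exact ⟨hp, hpD⟩
  have hp0 : ρ p = 0 := le_antisymm (hcl hp) (not_lt.1 hpD)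
  obtain ⟨v, hv, hva⟩ := vchar hDo (fun r hr => loc_lem h hp0.le hr) χ hP
  have hv0 : ∀ j, v (fun i => E i j) = 0 := by
    intro j
    rw [hva (mkA hDo (f := fun i => E i j) (fun i => (hEb i j).1) (C := 1) (fun i => (hEb i j).2))
      (fun i => E i j) (fun i => (hEb i j).1) (fun i x => rfl)]
    exact hχ j _ fun i x => rfl
  obtain ⟨lam, hlam⟩ : ∃ lam : (ℂ × ℂ → ℂ) → ℂ, ∀ s, lam s = v (fun _ => s) := ⟨_, fun _ => rfl⟩
  obtain ⟨T, hT, ε, hε, Q, hQ⟩ := hloc p hpf lam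
  have hEn : ∀ j, Bnr {x | ρ x < 0} p (fun i => E i j) := fun j =>
    ⟨1, 1, one_pos, zero_le_one, fun i => ⟨(hEb i j).1.mono inter_subset_left,
      fun x hx => (hEb i j).2 x hx.1⟩⟩
  -- the generators
  have hTe : ∀ s : T, ∃ q : (ℂ → ℂ) × (ℂ × ℂ → ℂ), DifferentiableOn ℂ q.1 (ball 0 1) ∧
    (∃ C : ℝ, ∀ w ∈ ball (0 : ℂ) 1, ‖q.1 w‖ ≤ C) ∧ AnalyticAt ℂ q.2 p ∧
    (∀ᶠ z in 𝓝 p, z ∈ {x | ρ x < 0} → ‖q.2 z‖ < 1) ∧ ∀ z, s.1 z = q.1 (q.2 z) := by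
    intro s
    obtain ⟨f, ψ, h1, h2, h3, h4, h5⟩ := hT s.1 s.2
    exact ⟨(f, ψ), h1, h2, h3, h4, h5⟩
  choose q hq1 hq2 hq3 hq4 hq5 using hTe
  choose Cq hCq using hq2
  obtain ⟨B, hB0, hB⟩ : ∃ B : ℝ, 0 < B ∧ ∀ s : T, ∀ w ∈ ball (0 : ℂ) 1, ‖(q s).1 w - lam s‖ ≤ B := by
    refine ⟨∑ s : T, (|Cq s| + ‖lam s‖) + 1, ?_, fun s w hw => ?_⟩
    · have : 0 ≤ ∑ s : T, (|Cq s| + ‖lam s‖) :=
        Finset.sum_nonneg fun s _ => add_nonneg (abs_nonneg _) (norm_nonneg _)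
      linarith
    · have h1 : |Cq s| + ‖lam s‖ ≤ ∑ s : T, (|Cq s| + ‖lam s‖) :=
        Finset.single_le_sum (f := fun s : T => |Cq s| + ‖lam s‖)
          (fun s _ => add_nonneg (abs_nonneg _) (norm_nonneg _)) (Finset.mem_univ s)
      have h2 := norm_sub_le ((q s).1 w) (lam s)
      have h3 := (hCq s w hw).trans (le_abs_self _)
      linarith
  have hBc : (B : ℂ) ≠ 0 := by exact_mod_cast hB0.ne'
  have hBn : ‖(B : ℂ)‖ = B := by rw [Complex.norm_real, Real.norm_of_nonneg hB0.le]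
  let e := T.equivFin
  obtain ⟨f, hf⟩ : ∃ f : Fin T.card → ℂ → ℂ, ∀ k w, f k w = ((q (e.symm k)).1 w - lam (e.symm k)) / B :=
    ⟨_, fun _ _ => rfl⟩
  have hf' : ∀ k, f k = fun w => ((q (e.symm k)).1 w - lam (e.symm k)) * (B : ℂ)⁻¹ := fun k => by
    funext w
    rw [hf, div_eq_mul_inv]
  obtain ⟨ψ, hψ⟩ : ∃ ψ : Fin T.card → ℂ × ℂ → ℂ, ∀ k, ψ k = (q (e.symm k)).2 := ⟨_, fun _ => rfl⟩
  have hψa : ∀ k, AnalyticAt ℂ (ψ k) p := fun k => by rw [hψ]; exact hq3 _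
  have hψ1 : ∀ k, ∀ᶠ x in 𝓝 p, ρ x < 0 → ‖ψ k x‖ < 1 := fun k => by rw [hψ]; exact hq4 _
  have hfd : ∀ k, DifferentiableOn ℂ (f k) (ball 0 1) := fun k => by
    rw [hf']
    exact ((hq1 _).sub (differentiableOn_const _)).mul (differentiableOn_const _)
  have hfb : ∀ k, ∀ w ∈ ball (0 : ℂ) 1, ‖f k w‖ ≤ 1 := fun k w hw => by
    rw [hf, norm_div, hBn, div_le_one hB0]
    exact hB _ w hw
  obtain ⟨δ, hδ⟩ : ∃ δ : ℝ, δ = min (ε / B) 1 := ⟨_, rfl⟩
  have hδ0 : 0 < δ := by rw [hδ]; exact lt_min (by positivity) one_pos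
  have hδ1 : δ ≤ 1 := by rw [hδ]; exact min_le_right _ _
  have hδB : δ * B ≤ ε := by
    have h1 : δ ≤ ε / B := by rw [hδ]; exact min_le_left _ _
    rwa [le_div_iff₀ hB0] at h1
  have hsub : {x | x ∈ {x | ρ x < 0} ∩ ball p ε ∧ ∀ k, ‖f k (ψ k x)‖ < δ} ⊆
      Cl {x | ρ x < 0} p T lam ε := by
    rintro x ⟨⟨hx1, hx2⟩, hx3⟩
    refine ⟨hx1, hx2, fun s hs => ?_⟩
    have h1 := hx3 (e ⟨s, hs⟩)
    rw [hf, hψ, norm_div, hBn, div_lt_iff₀ hB0] at h1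
    simp only [Equiv.symm_apply_apply] at h1
    rw [← hq5 ⟨s, hs⟩ x] at h1
    exact h1.trans_le hδB
  obtain ⟨u, hu1, hu2, hu3⟩ := hQ
  obtain ⟨C, r, hr0, hrε, g, hg1, hg2, hg3⟩ := tupM T.card (Fin N) (δ := δ) (Q := |Q * R|) hδ0 hδ1
    (abs_nonneg _) hε h hp0 hψa hψ1 hfd hfb (G := fun j => E () j)
    (fun j => ⟨(hEb () j).1.mono inter_subset_left, fun x hx => (hEb () j).2 x hx.1⟩)
    (by
      refine ⟨Sum.elim (fun _ _ => 0) (fun j x => u j x * R), ?_, ?_, ?_⟩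
      · rintro (k | j)
        · exact differentiableOn_const _
        · exact ((hu1 j).mono hsub).mul (differentiableOn_const _)
      · rintro (k | j) x hx
        · simp only [Sum.elim_inl, norm_zero]
          exact abs_nonneg _
        · simp only [Sum.elim_inr]
          rw [norm_mul, hRn]
          exact (mul_le_mul_of_nonneg_right (hu2 j x (hsub hx)) hR0.le).trans (le_abs_self _)
      · intro x hx
        rw [← hu3 x (hsub hx), Fintype.sum_sum_type]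
        simp only [SE, Sum.elim_inl, Sum.elim_inr, mul_zero, Finset.sum_const_zero, zero_add]
        refine Finset.sum_congr rfl fun j _ => ?_
        rw [hE]
        field_simp)
  -- the homomorphism
  have hgn : ∀ m, Bnr {x | ρ x < 0} p (fun _ : Unit => g m) := fun m =>
    ⟨r, |C|, hr0, abs_nonneg _, fun _ => ⟨hg1 m, fun x hx => (hg2 m x hx).trans (le_abs_self _)⟩⟩
  have hqd : ∀ k, Bnr {x | ρ x < 0} p (fun _ : Unit => fun x => f k (ψ k x)) := by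
    intro k
    have hev : ∀ᶠ x in 𝓝 p, AnalyticAt ℂ (ψ k) x ∧ (ρ x < 0 → ‖ψ k x‖ < 1) :=
      (hψa k).eventually_analyticAt.and (hψ1 k)
    obtain ⟨r', hr', hr's⟩ := Metric.eventually_nhds_iff_ball.1 hev
    refine ⟨r', 1, hr', zero_le_one, fun _ => ⟨fun x hx => ?_, fun x hx => ?_⟩⟩
    · have h2 := hr's x hx.2
      have h1 : DifferentiableAt ℂ (f k) (ψ k x) :=
        (hfd k).differentiableAt (isOpen_ball.mem_nhds (by rw [mem_ball_zero_iff]; exact h2.2 hx.1))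
      exact (h1.comp x h2.1.differentiableAt).differentiableWithinAt
    · exact hfb k _ (by rw [mem_ball_zero_iff]; exact (hr's x hx.2).2 hx.1)
  have hS : ∀ m, Bnr {x | ρ x < 0} p (fun _ : Unit => SE ψ f (fun j => E () j) m) := by
    rintro (k | j)
    · exact hqd k
    · exact hEn j
  have hvS : ∀ m, v (fun _ : Unit => SE ψ f (fun j => E () j) m) = 0 := by
    rintro (k | j)
    · -- `f k ∘ ψ k = (s - λ(s)) / B`
      have hs : Bnr {x | ρ x < 0} p (fun _ : Unit => (e.symm k : ℂ × ℂ → ℂ)) := by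
        have h1 := L4_add (L4_mul (hqd k) (L4_cst (I := Unit) {x | ρ x < 0} p (B : ℂ)))
          (L4_cst (I := Unit) {x | ρ x < 0} p (lam (e.symm k)))
        obtain ⟨r1, M1, hr1, hM1, h2⟩ := h1
        refine ⟨r1, M1, hr1, hM1, fun i => ?_⟩
        have h3 : (e.symm k : ℂ × ℂ → ℂ) = fun x => f k (ψ k x) * B + lam (e.symm k) := by
          funext x
          rw [hf, hψ, div_mul_cancel₀ _ hBc, sub_add_cancel]
          exact hq5 _ x
        rw [h3]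
        exact h2 i
      have h1 : (fun _ : Unit => SE ψ f (fun j => E () j) (Sum.inl k)) =
          fun (_ : Unit) x => ((e.symm k : ℂ × ℂ → ℂ) x + -v (fun _ : Unit => (e.symm k : ℂ × ℂ → ℂ))) *
            (B : ℂ)⁻¹ := by
        funext _ x
        simp only [SE, Sum.elim_inl]
        rw [hf, hψ, div_eq_mul_inv, hlam, sub_eq_add_neg, ← hq5 _ x]
      rw [h1]
      exact (L4_zero hv hs (B : ℂ)⁻¹).2
    · exact hv0 j
  have hb : ∀ m, Bnr {x | ρ x < 0} p (fun (_ : Unit) x => SE ψ f (fun j => E () j) m x * g m x) :=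
    fun m => L4_mul (hS m) (hgn m)
  have hsum := L4_sum hv (Finset.univ : Finset (Fin T.card ⊕ Fin N))
    (fun m (_ : Unit) x => SE ψ f (fun j => E () j) m x * g m x) hb
  have h1 : v (fun (_ : Unit) x => ∑ m, SE ψ f (fun j => E () j) m x * g m x) = 0 := by
    rw [hsum.2]
    refine Finset.sum_eq_zero fun m _ => ?_
    have := hv.mul _ _ (hS m) (hgn m)
    rw [this, hvS, zero_mul]
  have h2 : v (fun (_ : Unit) x => ∑ m, SE ψ f (fun j => E () j) m x * g m x) =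
      v (fun (_ : Unit) (_ : ℂ × ℂ) => (1 : ℂ)) := by
    refine hv.con _ _ hsum.1 (L4_cst (I := Unit) _ _ _) ?_
    filter_upwards [ball_mem_nhds p hr0] with x hx hxD _
    exact hg3 x ⟨hxD, hx⟩
  rw [h1, hv.cst] at h2
  exact zero_ne_one h2

end Pool.Agent.Helper60.CO
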